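import Pool.Agent.V8H31.KS.Par

/-!
# Even and odd derivations of the realisation of a tensor power
-/

set_option autoImplicit false
set_option linter.unusedSectionVars false
set_option linter.unusedSimpArgs false
set_option backward.isDefEq.respectTransparency false
set_option backward.defeqAttrib.useBackward true

open CategoryTheory Limits MonoidalCategory
open Pool.Agent.Y112.SR Pool.Agent.Y112.KD
open Pool.Agent.Y112.SC (bx bx_comp bx_one bx_map bx_par map_whiskerRight_eq bx_sw bx_add_left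
  bx_add_right bx_smul_left bx_smul_right bx_zero_left bx_zero_right PT PT_add PT_smul PT_comp
  PT_bx PT_sw PTn PTn_map up trace_PTn Sg Sg_Sg Sg_braid swap_sq bx_assoc bx_assoc_inv)

namespace Pool.Agent.V8H31.KS

universe v u w

open Functor.LaxMonoidal Functor.OplaxMonoidal

section

variable {C : Type u} [Category.{v} C] [Preadditive C] [MonoidalCategory C] [SymmetricCategory C]
  {K : Type w} [Field K] {R : SuperRealisation C K}

/-- The even derivation attached to `φ`. -/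
noncomputable def Der {X : C} (φ : R.H.obj X ⟶ R.H.obj X) :
    ∀ n : ℕ, R.H.obj (tp X n) ⟶ R.H.obj (tp X n)
  | 0 => 0
  | n + 1 => bx R (Der φ n) (𝟙 _) + bx R (𝟙 _) φ

/-- The odd derivation attached to `ψ`. -/
noncomputable def OD {X : C} (ψ : R.H.obj X ⟶ R.H.obj X) :
    ∀ n : ℕ, R.H.obj (tp X n) ⟶ R.H.obj (tp X n)
  | 0 => 0
  | n + 1 => bx R (OD ψ n) (𝟙 _) + bx R (R.par (tp X n)) ψ

/-- Even operators. -/
def Ev {X : C} (φ : R.H.obj X ⟶ R.H.obj X) : Prop := φ ≫ R.par X = R.par X ≫ φ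

/-- Odd operators. -/
def Od {X : C} (ψ : R.H.obj X ⟶ R.H.obj X) : Prop := ψ ≫ R.par X = -(R.par X ≫ ψ)

lemma bx_neg_left {Q X : C} (a : R.H.obj Q ⟶ R.H.obj Q) (b : R.H.obj X ⟶ R.H.obj X) :
    bx R (-a) b = -bx R a b := by
  have h := bx_smul_left R (-1 : K) a b
  rwa [neg_one_smul, neg_one_smul] at h

lemma bx_neg_right {Q X : C} (a : R.H.obj Q ⟶ R.H.obj Q) (b : R.H.obj X ⟶ R.H.obj X) :
    bx R a (-b) = -bx R a b := by
  have h := bx_smul_right R (-1 : K) a b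
  rwa [neg_one_smul, neg_one_smul] at h

lemma bx_sub_left {Q X : C} (a a' : R.H.obj Q ⟶ R.H.obj Q) (b : R.H.obj X ⟶ R.H.obj X) :
    bx R (a - a') b = bx R a b - bx R a' b := by
  rw [sub_eq_add_neg, bx_add_left, bx_neg_left, ← sub_eq_add_neg]

lemma bx_sub_right {Q X : C} (a : R.H.obj Q ⟶ R.H.obj Q) (b b' : R.H.obj X ⟶ R.H.obj X) :
    bx R a (b - b') = bx R a b - bx R a b' := by
  rw [sub_eq_add_neg, bx_add_right, bx_neg_right, ← sub_eq_add_neg]

lemma Der_succ {X : C} (φ : R.H.obj X ⟶ R.H.obj X) (n : ℕ) :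
    Der φ (n + 1) = bx R (Der φ n) (𝟙 _) + bx R (𝟙 _) φ := rfl

lemma OD_succ {X : C} (ψ : R.H.obj X ⟶ R.H.obj X) (n : ℕ) :
    OD ψ (n + 1) = bx R (OD ψ n) (𝟙 _) + bx R (R.par (tp X n)) ψ := rfl

lemma Der_add {X : C} (φ φ' : R.H.obj X ⟶ R.H.obj X) (n : ℕ) :
    Der (φ + φ') n = Der φ n + Der φ' n := by
  induction n with
  | zero => simp [Der]
  | succ n ih =>
    rw [Der_succ, Der_succ, Der_succ, ih, bx_add_left, bx_add_right]
    abel

lemma Der_smul {X : C} (c : K) (φ : R.H.obj X ⟶ R.H.obj X) (n : ℕ) :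
    Der (c • φ) n = c • Der φ n := by
  induction n with
  | zero => simp [Der]
  | succ n ih =>
    rw [Der_succ, Der_succ, ih, bx_smul_left, bx_smul_right, smul_add]

lemma Der_zero {X : C} (n : ℕ) : Der (0 : R.H.obj X ⟶ R.H.obj X) n = 0 := by
  have h := Der_smul (0 : K) (0 : R.H.obj X ⟶ R.H.obj X) n
  rwa [zero_smul, zero_smul] at h

lemma Der_neg {X : C} (φ : R.H.obj X ⟶ R.H.obj X) (n : ℕ) : Der (-φ) n = -Der φ n := by
  have h := Der_smul (-1 : K) φ n
  rwa [neg_one_smul, neg_one_smul] at h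

lemma Der_sub {X : C} (φ φ' : R.H.obj X ⟶ R.H.obj X) (n : ℕ) :
    Der (φ - φ') n = Der φ n - Der φ' n := by
  rw [sub_eq_add_neg, Der_add, Der_neg, ← sub_eq_add_neg]

lemma OD_smul {X : C} (c : K) (φ : R.H.obj X ⟶ R.H.obj X) (n : ℕ) :
    OD (c • φ) n = c • OD φ n := by
  induction n with
  | zero => simp [OD]
  | succ n ih =>
    rw [OD_succ, OD_succ, ih, bx_smul_left, bx_smul_right, smul_add]

lemma OD_neg {X : C} (φ : R.H.obj X ⟶ R.H.obj X) (n : ℕ) : OD (-φ) n = -OD φ n := by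
  have h := OD_smul (-1 : K) φ n
  rwa [neg_one_smul, neg_one_smul] at h

lemma Der_one {X : C} (n : ℕ) : Der (𝟙 (R.H.obj X)) n = (n : K) • 𝟙 _ := by
  induction n with
  | zero => simp [Der]
  | succ n ih =>
    rw [Der_succ, ih, bx_smul_left, bx_one]
    push_cast
    rw [add_smul, one_smul]

/-- The even derivations form a Lie algebra. -/
lemma Der_comm {X : C} (φ φ' : R.H.obj X ⟶ R.H.obj X) (n : ℕ) :
    Der φ n ≫ Der φ' n - Der φ' n ≫ Der φ n = Der (φ ≫ φ' - φ' ≫ φ) n := by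
  induction n with
  | zero => simp [Der]
  | succ n ih =>
    rw [Der_succ, Der_succ, Der_succ, ← ih]
    simp only [Preadditive.comp_add, Preadditive.add_comp, bx_comp, Category.id_comp,
      Category.comp_id, bx_sub_left, bx_sub_right]
    abel

lemma Der_par {X : C} {φ : R.H.obj X ⟶ R.H.obj X} (hφ : Ev φ) (n : ℕ) :
    Der φ n ≫ R.par (tp X n) = R.par (tp X n) ≫ Der φ n := by
  induction n with
  | zero => simp [Der]
  | succ n ih =>
    have h1 : R.par (tp X (n + 1)) = bx R (R.par (tp X n)) (R.par X) := (bx_par R _ _).symm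
    unfold Ev at hφ
    rw [Der_succ, h1]
    simp only [Preadditive.comp_add, Preadditive.add_comp, bx_comp, Category.id_comp,
      Category.comp_id, ih, hφ]

lemma OD_par {X : C} {ψ : R.H.obj X ⟶ R.H.obj X} (hψ : Od ψ) (n : ℕ) :
    OD ψ n ≫ R.par (tp X n) = -(R.par (tp X n) ≫ OD ψ n) := by
  induction n with
  | zero => simp [OD]
  | succ n ih =>
    have h1 : R.par (tp X (n + 1)) = bx R (R.par (tp X n)) (R.par X) := (bx_par R _ _).symm
    unfold Od at hψ
    rw [OD_succ, h1]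
    simp only [Preadditive.comp_add, Preadditive.add_comp, bx_comp, Category.id_comp,
      Category.comp_id, ih, hψ, bx_neg_left, bx_neg_right]
    abel

lemma Der_OD {X : C} {φ : R.H.obj X ⟶ R.H.obj X} (hφ : Ev φ) (ψ : R.H.obj X ⟶ R.H.obj X)
    (n : ℕ) : Der φ n ≫ OD ψ n - OD ψ n ≫ Der φ n = OD (φ ≫ ψ - ψ ≫ φ) n := by
  induction n with
  | zero => simp [Der, OD]
  | succ n ih =>
    rw [Der_succ, OD_succ, OD_succ, ← ih]
    simp only [Preadditive.comp_add, Preadditive.add_comp, bx_comp, Category.id_comp,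
      Category.comp_id, bx_sub_left, bx_sub_right, Der_par hφ]
    abel

lemma OD_OD {X : C} {ψ ψ' : R.H.obj X ⟶ R.H.obj X} (hψ : Od ψ) (hψ' : Od ψ')
    (n : ℕ) : OD ψ n ≫ OD ψ' n + OD ψ' n ≫ OD ψ n = Der (ψ ≫ ψ' + ψ' ≫ ψ) n := by
  induction n with
  | zero => simp [Der, OD]
  | succ n ih =>
    rw [Der_succ, OD_succ, OD_succ, ← ih]
    simp only [Preadditive.comp_add, Preadditive.add_comp, bx_comp, Category.id_comp,
      Category.comp_id, bx_add_left, bx_add_right, OD_par hψ, OD_par hψ', bx_neg_left, R.par_sq]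
    abel

/-- The exchange of two factors and odd operators. -/
lemma braid_odd_left (h2 : (2 : K) ≠ 0) {X : C} (ψ : R.H.obj X ⟶ R.H.obj X) (hψ : Od ψ) :
    bx R ψ (𝟙 _) ≫ R.H.map (β_ X X).hom = R.H.map (β_ X X).hom ≫ bx R (R.par X) ψ := by
  unfold Od at hψ
  have h3 : (ψ ⊗ₘ 𝟙 (R.H.obj X)) ≫
      (𝟙 _ + R.par X ▷ R.H.obj X + R.H.obj X ◁ R.par X - (R.par X ⊗ₘ R.par X)) =
      (𝟙 _ + R.par X ▷ R.H.obj X + R.H.obj X ◁ R.par X - (R.par X ⊗ₘ R.par X)) ≫
        (ψ ⊗ₘ R.par X) := by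
    simp only [Preadditive.sub_comp, Preadditive.add_comp, Preadditive.comp_sub,
      Preadditive.comp_add, Category.id_comp, Category.comp_id, ← tensorHom_id, ← id_tensorHom,
      tensorHom_comp_tensorHom, hψ, R.par_sq]
    have h5 : ∀ b : R.H.obj X ⟶ R.H.obj X, (-(R.par X ≫ ψ) ⊗ₘ b) = -((R.par X ≫ ψ) ⊗ₘ b) := by
      intro b
      have h6 : (((-(R.par X ≫ ψ)) + (R.par X ≫ ψ)) ⊗ₘ b) = 0 := by
        rw [neg_add_cancel, MonoidalPreadditive.zero_tensor]
      rw [MonoidalPreadditive.add_tensor] at h6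
      exact eq_neg_of_add_eq_zero_left h6
    simp only [h5]
    abel
  have h4 : (2 : K) • ((ψ ⊗ₘ 𝟙 _) ≫ μ R.H X X ≫ R.H.map (β_ X X).hom) =
      (2 : K) • (μ R.H X X ≫ R.H.map (β_ X X).hom ≫ δ R.H X X ≫ (R.par X ⊗ₘ ψ) ≫ μ R.H X X) := by
    rw [← Linear.comp_smul, R.symm, ← Category.assoc (ψ ⊗ₘ 𝟙 _), h3, Category.assoc,
      BraidedCategory.braiding_naturality_assoc]
    have h5 : (2 : K) • (μ R.H X X ≫ R.H.map (β_ X X).hom ≫ δ R.H X X ≫ (R.par X ⊗ₘ ψ) ≫ μ R.H X X) =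
        ((2 : K) • (μ R.H X X ≫ R.H.map (β_ X X).hom)) ≫ δ R.H X X ≫ (R.par X ⊗ₘ ψ) ≫ μ R.H X X := by
      rw [Linear.smul_comp, Category.assoc]
    rw [h5, R.symm]
    simp only [Category.assoc, Functor.Monoidal.μ_δ_assoc]
  have h5 := congrArg (fun z => (2 : K)⁻¹ • z) h4
  simp only [smul_smul, inv_mul_cancel₀ h2, one_smul] at h5
  rw [bx, Category.assoc, Category.assoc, h5, bx, Functor.Monoidal.δ_μ_assoc]

lemma braid_sq (X : C) : R.H.map (β_ X X).hom ≫ R.H.map (β_ X X).hom = 𝟙 _ := by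
  rw [← R.H.map_comp, SymmetricCategory.symmetry, R.H.map_id]

lemma braid_odd_right (h2 : (2 : K) ≠ 0) {X : C} (ψ : R.H.obj X ⟶ R.H.obj X) (hψ : Od ψ) :
    bx R (R.par X) ψ ≫ R.H.map (β_ X X).hom = R.H.map (β_ X X).hom ≫ bx R ψ (𝟙 _) := by
  have h1 := congrArg (fun z => R.H.map (β_ X X).hom ≫ z ≫ R.H.map (β_ X X).hom)
    (braid_odd_left (R := R) h2 ψ hψ)
  simp only [Category.assoc] at h1
  rw [braid_sq, Category.comp_id, ← Category.assoc (R.H.map (β_ X X).hom) (R.H.map (β_ X X).hom),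
    braid_sq, Category.id_comp] at h1
  exact h1.symm

lemma map_sw (Q X : C) : R.H.map (sw Q X) = R.H.map (α_ Q X X).hom ≫
    bx R (𝟙 _) (R.H.map (β_ X X).hom) ≫ R.H.map (α_ Q X X).inv := by
  have e1 : R.H.map (Q ◁ (β_ X X).hom) = bx R (𝟙 _) (R.H.map (β_ X X).hom) := by
    rw [← CategoryTheory.Functor.map_id, bx_map, id_tensorHom]
  rw [sw, Functor.map_comp, Functor.map_comp, e1]

/-- The exchange of the last two factors and products of operators. -/
lemma sw_gen {Q X : C} (a : R.H.obj Q ⟶ R.H.obj Q) (b c b' c' : R.H.obj X ⟶ R.H.obj X)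
    (h : bx R b c ≫ R.H.map (β_ X X).hom = R.H.map (β_ X X).hom ≫ bx R b' c') :
    bx R (bx R a b) c ≫ R.H.map (sw Q X) = R.H.map (sw Q X) ≫ bx R (bx R a b') c' := by
  rw [map_sw, ← Category.assoc, bx_assoc]
  simp only [Category.assoc]
  rw [← bx_assoc_inv, ← Category.assoc (bx R a (bx R b c)), bx_comp, h,
    ← Category.assoc (bx R (𝟙 _) _), bx_comp, Category.comp_id, Category.id_comp]

lemma Der_swap (h2 : (2 : K) ≠ 0) {X : C} {φ : R.H.obj X ⟶ R.H.obj X} (hφ : Ev φ) {n : ℕ}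
    {s : tp X n ⟶ tp X n} (hs : IsSwap X n s) : R.H.map s ≫ Der φ n = Der φ n ≫ R.H.map s := by
  induction hs with
  | last n =>
    have h1 : (𝟙 (R.H.obj X)) ≫ R.par X = R.par X ≫ 𝟙 _ := by
      rw [Category.comp_id, Category.id_comp]
    have h3 : Der φ (n + 2) = bx R (bx R (Der φ n) (𝟙 _)) (𝟙 _) + bx R (bx R (𝟙 _) φ) (𝟙 _) +
        bx R (bx R (𝟙 _) (𝟙 _)) φ := by
      rw [Der_succ, Der_succ, bx_add_left, bx_one]
    rw [h3]
    simp only [Preadditive.comp_add, Preadditive.add_comp]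
    rw [bx_sw R h2 _ _ _ h1 h1, bx_sw R h2 _ _ _ hφ h1, bx_sw R h2 _ _ _ h1 hφ]
    abel
  | lift n s hs ih =>
    rw [map_whiskerRight_eq, Der_succ, Preadditive.comp_add, Preadditive.add_comp, bx_comp,
      bx_comp, bx_comp, bx_comp, ih]
    simp only [Category.comp_id, Category.id_comp]

lemma OD_swap (h2 : (2 : K) ≠ 0) {X : C} {ψ : R.H.obj X ⟶ R.H.obj X} (hψ : Od ψ) {n : ℕ}
    {s : tp X n ⟶ tp X n} (hs : IsSwap X n s) : R.H.map s ≫ OD ψ n = OD ψ n ≫ R.H.map s := by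
  induction hs with
  | last n =>
    have h1 : (𝟙 (R.H.obj X)) ≫ R.par X = R.par X ≫ 𝟙 _ := by
      rw [Category.comp_id, Category.id_comp]
    have h3 : OD ψ (n + 2) = bx R (bx R (OD ψ n) (𝟙 _)) (𝟙 _) +
        bx R (bx R (R.par (tp X n)) ψ) (𝟙 _) + bx R (bx R (R.par (tp X n)) (R.par X)) ψ := by
      rw [OD_succ, OD_succ, bx_add_left, bx_par]
    rw [h3]
    simp only [Preadditive.comp_add, Preadditive.add_comp]
    rw [bx_sw R h2 _ _ _ h1 h1, sw_gen _ _ _ _ _ (braid_odd_left h2 ψ hψ),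
      sw_gen _ _ _ _ _ (braid_odd_right h2 ψ hψ)]
    abel
  | lift n s hs ih =>
    rw [map_whiskerRight_eq, OD_succ, Preadditive.comp_add, Preadditive.add_comp, bx_comp,
      bx_comp, bx_comp, bx_comp, ih, R.par_natural]
    simp only [Category.comp_id, Category.id_comp]

end

end Pool.Agent.V8H31.KS
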