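import Pool.Agent.Y112.SC.Main

/-!
# Graded super realisations and the Künneth conjecture
-/

set_option autoImplicit false
set_option linter.unusedSectionVars false
set_option linter.unusedSimpArgs false
set_option backward.isDefEq.respectTransparency false
set_option backward.defeqAttrib.useBackward true

open CategoryTheory Limits MonoidalCategory
open Pool.Agent.Y112.SR Pool.Agent.Y112.KD
open Pool.Agent.Y112.SC (bx bx_comp bx_one bx_map bx_par bx_add_left
  bx_add_right bx_smul_left bx_smul_right bx_zero_left bx_zero_right bx_sum_left)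

namespace Pool.Agent.V8H31.KS

universe v u w

open Functor.LaxMonoidal Functor.OplaxMonoidal

section

variable {C : Type u} [Category.{v} C] [Preadditive C] [MonoidalCategory C] [SymmetricCategory C]
  {K : Type w} [Field K]

/-- A grading of the super realisation `R` by the integers, for instance the one of a Weil
cohomology, for which `h(X)(r)` has the part `H^i(X)` in degree `i - 2 r`: natural orthogonal
projectors `gr X i` of `R(X)` with sum one (almost all zero), compatible with tensor products, such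
that the parity operator is `(-1)^i` on the part of degree `i`. -/
structure ZGr (R : SuperRealisation C K) where
  /-- the projector to the part of degree `i` -/
  gr (X : C) (i : ℤ) : R.H.obj X ⟶ R.H.obj X
  gr_idem (X : C) (i : ℤ) : gr X i ≫ gr X i = gr X i
  gr_orth (X : C) (i j : ℤ) (h : i ≠ j) : gr X i ≫ gr X j = 0
  gr_natural {X Y : C} (f : X ⟶ Y) (i : ℤ) : R.H.map f ≫ gr Y i = gr X i ≫ R.H.map f
  gr_sum (X : C) : ∃ s : Finset ℤ, (∀ i, i ∉ s → gr X i = 0) ∧ ∑ i ∈ s, gr X i = 𝟙 _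
  gr_tensor (X Y : C) (i j k : ℤ) : (gr X i ⊗ₘ gr Y j) ≫ μ R.H X Y ≫ gr (X ⊗ Y) k =
    if i + j = k then (gr X i ⊗ₘ gr Y j) ≫ μ R.H X Y else 0
  gr_par (X : C) (i : ℤ) : gr X i ≫ R.par X = (-1 : K) ^ i • gr X i

/-- The `K`-span of the realisations of the endomorphisms of `X`: the algebraic classes. -/
def alg (R : SuperRealisation C K) (X : C) : Submodule K (R.H.obj X ⟶ R.H.obj X) :=
  Submodule.span K (Set.range fun f : X ⟶ X => R.H.map f)

variable {R : SuperRealisation C K}

/-- The Künneth conjecture for `X`: all Künneth projectors are algebraic. -/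
def Kun (𝒢 : ZGr R) (X : C) : Prop := ∀ k : ℤ, 𝒢.gr X k ∈ alg R X

/-- At least two different degrees occur in the realisation of `X`. -/
def TwoDegrees (𝒢 : ZGr R) (X : C) : Prop := ∃ k l : ℤ, k ≠ l ∧ 𝒢.gr X k ≠ 0 ∧ 𝒢.gr X l ≠ 0

lemma map_mem {X : C} (f : X ⟶ X) : R.H.map f ∈ alg R X := Submodule.subset_span ⟨f, rfl⟩

lemma comp_mem {X : C} {a b : R.H.obj X ⟶ R.H.obj X} (ha : a ∈ alg R X) (hb : b ∈ alg R X) :
    a ≫ b ∈ alg R X := by
  refine Submodule.span_induction (p := fun a _ => a ≫ b ∈ alg R X) ?_ ?_ ?_ ?_ ha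
  · rintro _ ⟨f, rfl⟩
    refine Submodule.span_induction (p := fun b _ => R.H.map f ≫ b ∈ alg R X) ?_ ?_ ?_ ?_ hb
    · rintro _ ⟨g, rfl⟩
      rw [← R.H.map_comp]
      exact map_mem _
    · rw [comp_zero]
      exact Submodule.zero_mem _
    · intro x y _ _ hx hy
      rw [Preadditive.comp_add]
      exact Submodule.add_mem _ hx hy
    · intro c x _ hx
      rw [Linear.comp_smul]
      exact Submodule.smul_mem _ _ hx
  · rw [zero_comp]
    exact Submodule.zero_mem _
  · intro x y _ _ hx hy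
    rw [Preadditive.add_comp]
    exact Submodule.add_mem _ hx hy
  · intro c x _ hx
    rw [Linear.smul_comp]
    exact Submodule.smul_mem _ _ hx

lemma one_alg (X : C) : 𝟙 (R.H.obj X) ∈ alg R X := by
  rw [← R.H.map_id]
  exact map_mem _

lemma bx_sum_right {Q X : C} {ι : Type*} (s : Finset ι) (a : R.H.obj Q ⟶ R.H.obj Q)
    (b : ι → (R.H.obj X ⟶ R.H.obj X)) : ∑ i ∈ s, bx R a (b i) = bx R a (∑ i ∈ s, b i) := by
  classical
  induction s using Finset.induction_on with
  | empty => rw [Finset.sum_empty, Finset.sum_empty, bx_zero_right]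
  | insert i s hi ih => rw [Finset.sum_insert hi, Finset.sum_insert hi, bx_add_right, ih]

lemma bx_sum_l {Q X : C} {ι : Type*} (s : Finset ι) (a : ι → (R.H.obj Q ⟶ R.H.obj Q))
    (b : R.H.obj X ⟶ R.H.obj X) : ∑ i ∈ s, bx R (a i) b = bx R (∑ i ∈ s, a i) b := by
  classical
  induction s using Finset.induction_on with
  | empty => rw [Finset.sum_empty, Finset.sum_empty, bx_zero_left]
  | insert i s hi ih => rw [Finset.sum_insert hi, Finset.sum_insert hi, bx_add_left, ih]

variable {𝒢 : ZGr R}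

lemma bx_gr (X Y : C) (i j k : ℤ) : bx R (𝒢.gr X i) (𝒢.gr Y j) ≫ 𝒢.gr (X ⊗ Y) k =
    if i + j = k then bx R (𝒢.gr X i) (𝒢.gr Y j) else 0 := by
  rw [bx, Category.assoc, Category.assoc, 𝒢.gr_tensor]
  split_ifs
  · rfl
  · rw [comp_zero]

/-- The Künneth formula for the projectors. -/
lemma gr_tp (X Y : C) {s : Finset ℤ} (h1 : ∑ i ∈ s, 𝒢.gr X i = 𝟙 _) (k : ℤ) : 𝒢.gr (X ⊗ Y) k =
    ∑ i ∈ s, bx R (𝒢.gr X i) (𝒢.gr Y (k - i)) := by
  obtain ⟨t, ht0, ht1⟩ := 𝒢.gr_sum Y
  have e1 : 𝒢.gr (X ⊗ Y) k = ∑ i ∈ s, ∑ j ∈ t, bx R (𝒢.gr X i) (𝒢.gr Y j) ≫ 𝒢.gr (X ⊗ Y) k := by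
    have e2 : ∀ i ∈ s, ∑ j ∈ t, bx R (𝒢.gr X i) (𝒢.gr Y j) ≫ 𝒢.gr (X ⊗ Y) k =
        bx R (𝒢.gr X i) (𝟙 _) ≫ 𝒢.gr (X ⊗ Y) k := by
      intro i _
      rw [← Preadditive.sum_comp, bx_sum_right, ht1]
    rw [Finset.sum_congr rfl e2, ← Preadditive.sum_comp, bx_sum_l, h1, bx_one, Category.id_comp]
  rw [e1]
  refine Finset.sum_congr rfl fun i _ => ?_
  by_cases hk : k - i ∈ t
  · rw [Finset.sum_eq_single (k - i)]
    · rw [bx_gr, if_pos (by ring)]
    · intro b _ hb
      rw [bx_gr, if_neg (by omega)]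
    · intro h
      exact absurd hk h
  · rw [ht0 _ hk, bx_zero_right]
    refine Finset.sum_eq_zero fun j hj => ?_
    rw [bx_gr, if_neg]
    intro h
    apply hk
    have : k - i = j := by omega
    rw [this]
    exact hj

end

section

variable {C : Type u} [Category.{v} C] [Preadditive C] [Linear ℚ C] [MonoidalCategory C]
  [MonoidalPreadditive C] [SymmetricCategory C] [RightRigidCategory C] {K : Type w} [Field K]
  {R : SuperRealisation C K}

lemma pt_smul {M N : C} (c : K) (x : R.H.obj M ⊗ R.H.obj N ⟶ R.H.obj M ⊗ R.H.obj N) :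
    pt R (c • x) = c • pt R x := by
  simp [pt, MonoidalLinear.smul_whiskerRight]

/-- The partial trace over the second factor on the realisation. -/
noncomputable def ptK (R : SuperRealisation C K) (M N : C) :
    (R.H.obj (M ⊗ N) ⟶ R.H.obj (M ⊗ N)) →ₗ[K] (R.H.obj M ⟶ R.H.obj M) where
  toFun x := pt R (μ R.H M N ≫ x ≫ δ R.H M N)
  map_add' x y := by rw [Preadditive.add_comp, Preadditive.comp_add, pt_add]
  map_smul' c x := by rw [Linear.smul_comp, Linear.comp_smul, pt_smul, RingHom.id_apply]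

lemma ptK_mem {M N : C} {x : R.H.obj (M ⊗ N) ⟶ R.H.obj (M ⊗ N)} (hx : x ∈ alg R (M ⊗ N)) :
    ptK R M N x ∈ alg R M := by
  refine Submodule.span_induction (p := fun x _ => ptK R M N x ∈ alg R M) ?_ ?_ ?_ ?_ hx
  · rintro _ ⟨f, rfl⟩
    change pt R (μ R.H M N ≫ R.H.map f ≫ δ R.H M N) ∈ _
    rw [← map_ptr]
    exact map_mem _
  · rw [map_zero]
    exact Submodule.zero_mem _
  · intro x y _ _ hx hy
    rw [map_add]
    exact Submodule.add_mem _ hx hy
  · intro c x _ hx
    rw [map_smul]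
    exact Submodule.smul_mem _ _ hx

end

end Pool.Agent.V8H31.KS
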