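import Pool.Agent.V8H31.KS.Place

/-!
# Descent of the Künneth conjecture from Schur functors
-/

set_option autoImplicit false
set_option linter.unusedSectionVars false
set_option linter.unusedSimpArgs false
set_option backward.isDefEq.respectTransparency false
set_option backward.defeqAttrib.useBackward true

open CategoryTheory Limits MonoidalCategory
open Pool.Agent.Y112.SR Pool.Agent.Y112.KD
open Pool.Agent.Y112.SC (bx bx_comp bx_one bx_map bx_par map_whiskerRight_eq bx_sw bx_add_left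
  bx_add_right bx_smul_left bx_smul_right bx_zero_left bx_zero_right bx_sum_left exists_rk
  up Sg Sg_Sg swap_sq trF IsSchurSummand)

namespace Pool.Agent.V8H31.KS

universe v u w

open Functor.LaxMonoidal Functor.OplaxMonoidal

section

variable {C : Type u} [Category.{v} C] [Preadditive C] [Linear ℚ C] [MonoidalCategory C]
  [MonoidalPreadditive C] [MonoidalLinear ℚ C] [SymmetricCategory C]
  [RightRigidCategory C] {K : Type w} [Field K] {R : SuperRealisation C K} {𝒢 : ZGr R}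

section letters

variable {X : C} {i j : ℤ} {v w : R.H.obj X} {f g : R.H.obj X →ₗ[K] K}

lemma hom_comp_apply {X : C} (a b : R.H.obj X ⟶ R.H.obj X) (x : R.H.obj X) :
    (a ≫ b).hom x = b.hom (a.hom x) := rfl

lemma Letter.apply (hv : Letter 𝒢 i v f) {T : R.H.obj X ⟶ R.H.obj X} {c : K}
    (hT : 𝒢.gr X i ≫ T = c • 𝒢.gr X i) : T.hom v = c • v := by
  have h1 := LinearMap.congr_fun (congrArg ModuleCat.Hom.hom hT) v
  have h2 : T.hom ((𝒢.gr X i).hom v) = c • (𝒢.gr X i).hom v := h1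
  rwa [hv.vec] at h2

lemma Letter.dual (hv : Letter 𝒢 i v f) {T : R.H.obj X ⟶ R.H.obj X} {c : K}
    (hT : T ≫ 𝒢.gr X i = c • 𝒢.gr X i) : f ∘ₗ T.hom = c • f := by
  ext x
  have h1 := LinearMap.congr_fun (congrArg ModuleCat.Hom.hom hT) x
  have h2 : (𝒢.gr X i).hom (T.hom x) = c • (𝒢.gr X i).hom x := h1
  have h3 : ∀ y, f ((𝒢.gr X i).hom y) = f y := fun y => LinearMap.congr_fun hv.fun' y
  rw [LinearMap.comp_apply, LinearMap.smul_apply, ← h3 (T.hom x), h2, map_smul, h3]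

lemma Letter.vpar (hv : Letter 𝒢 i v f) : VPar ((-1 : K) ^ i) v := hv.apply (𝒢.gr_par X i)

lemma Letter.fpar (hv : Letter 𝒢 i v f) : FPar ((-1 : K) ^ i) f := by
  refine hv.dual ?_
  rw [← D_par (gr_mem 𝒢 X i)]
  exact 𝒢.gr_par X i

lemma Letter.ev (hv : Letter 𝒢 i v f) : Ev (rk f v) := rk_ev hv.fpar hv.vpar

lemma Letter.cross (hv : Letter 𝒢 i v f) (hw : Letter 𝒢 j w g) (hij : j ≠ i) : g v = 0 := by
  have h1 : g ((𝒢.gr X j).hom v) = g v := LinearMap.congr_fun hw.fun' v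
  have h2 : (𝒢.gr X j).hom ((𝒢.gr X i).hom v) = 0 :=
    LinearMap.congr_fun (congrArg ModuleCat.Hom.hom (𝒢.gr_orth X i j (Ne.symm hij))) v
  rw [← h1, ← hv.vec, h2, map_zero]

lemma Letter.idem (hv : Letter 𝒢 i v f) : rk f v ≫ rk f v = rk f v := by
  rw [rk_rk, hv.one, one_smul]

end letters

/-- The common action of the algebraic weight operators on two weights. -/
def Unsep (𝒢 : ZGr R) (X : C) (i j : ℤ) : Prop :=
  ∀ T ∈ Dg 𝒢 X, T ∈ alg R X → ∃ c : K, 𝒢.gr X i ≫ T = c • 𝒢.gr X i ∧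
    𝒢.gr X j ≫ T = c • 𝒢.gr X j

section two

variable {X : C} {i j : ℤ} {v w : R.H.obj X} {f g : R.H.obj X →ₗ[K] K}

lemma trc_letter (hv : Letter 𝒢 i v f) {T : R.H.obj X ⟶ R.H.obj X} {c : K}
    (hT : 𝒢.gr X i ≫ T = c • 𝒢.gr X i) :
    trc R X (rk f v ≫ T ≫ R.par X) = c * (-1) ^ i := by
  rw [rk_right, trc_rk, hom_comp_apply, hv.apply hT, map_smul, hv.vpar, map_smul, map_smul, hv.one,
    smul_eq_mul, smul_eq_mul, mul_one]

lemma theta_ev (hv : Letter 𝒢 i v f) (hw : Letter 𝒢 j w g) (t : K) :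
    Ev (rk f v - t • rk g w) := by
  have h1 := hv.ev
  have h2 := hw.ev
  unfold Ev at h1 h2 ⊢
  rw [Preadditive.sub_comp, Preadditive.comp_sub, Linear.smul_comp, Linear.comp_smul, h1, h2]

variable {n : ℕ} {E : R.H.obj (tp X n) ⟶ R.H.obj (tp X n)}

lemma main_trace (hv : Letter 𝒢 i v f) (hw : Letter 𝒢 j w g) (hu : Unsep 𝒢 X i j)
    (hEM : E ∈ MS 𝒢 X n) (hEp : E ≫ R.par (tp X n) = R.par (tp X n) ≫ E)
    (hEa : ∀ b ∈ Dg 𝒢 (tp X n), b ≫ E ∈ alg R (tp X n))
    {b : R.H.obj (tp X n) ⟶ R.H.obj (tp X n)} (hb : b ∈ Dg 𝒢 (tp X n)) :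
    trc R (tp X n) (Der (rk f v - ((-1 : K) ^ i * (-1) ^ j) • rk g w) n ≫ b ≫ E) = 0 := by
  have hK := R_charZero R
  have h1 : b ≫ R.par (tp X n) ∈ Dg 𝒢 (tp X n) := D_comp hb (par_mem 𝒢 _)
  have h2 := der_trace (𝒢 := 𝒢) (theta_ev hv hw ((-1 : K) ^ i * (-1) ^ j)) ?_
    (MS_comp two_ne_zero (MS_D h1) hEM) (hEa _ h1)
  · have h3 : ((b ≫ R.par (tp X n)) ≫ E) ≫ R.par (tp X n) = b ≫ E := by
      rw [Category.assoc, Category.assoc, hEp, ← Category.assoc (R.par (tp X n)), R.par_sq,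
        Category.id_comp]
    rwa [h3] at h2
  · intro T hT hTa
    obtain ⟨c, hc1, hc2⟩ := hu T hT hTa
    rw [Preadditive.sub_comp, map_sub, trc_letter hv hc1, Linear.smul_comp, map_smul,
      trc_letter hw hc2, smul_eq_mul]
    have h5 : ((-1 : K) ^ j) * (-1) ^ j = 1 := by
      rw [← mul_zpow, neg_one_mul, neg_neg, one_zpow]
    linear_combination (-(-1 : K) ^ i * c) * h5

/-- The conclusion in the presence of both parities. -/
lemma fin_both {u : R.H.obj X} {h : R.H.obj X →ₗ[K] K} (hE : Good E) (hn : 1 ≤ n) {s : K}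
    (hs : s ≠ 0) (hs1 : s * s = 1) (hv : VPar s v) (hf : FPar s f) (hfv : f v = 1)
    (hu : VPar (-s) u) (hh : FPar (-s) h) (hhu : h u = 1) (h1 : Der (rk f v) n ≫ E = 0)
    (h2 : Der (rk h u) n ≫ E = 0) : E = 0 := by
  refine step6 hn (fun t ht y k hy hk => ?_)
  have hts : t = s ∨ t = -s := by
    have h3 : t * t = 1 := by rcases ht with rfl | rfl <;> ring
    exact mul_self_eq_mul_self_iff.1 (h3.trans hs1.symm)
  rcases hts with rfl | rfl
  · refine step5 hE (neg_ne_zero.2 hs) hu hh hhu h2 ?_ ?_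
    · rw [neg_neg]; exact hy
    · rw [neg_neg]; exact hk
  · exact step5 hE hs hv hf hfv h1 hy hk

lemma sgn_sq (i : ℤ) : ((-1 : K) ^ i) * (-1) ^ i = 1 := by
  rw [← mul_zpow, neg_one_mul, neg_neg, one_zpow]

lemma sgn_ne (i : ℤ) : ((-1 : K) ^ i) ≠ 0 := by
  intro h
  have := sgn_sq (K := K) i
  rw [h, zero_mul] at this
  exact zero_ne_one this

/-- The case of opposite parities. -/
lemma caseA (hv : Letter 𝒢 i v f) (hw : Letter 𝒢 j w g) (hu : Unsep 𝒢 X i j) (hE : Good E)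
    (hn : 1 ≤ n)
    (hEM : E ∈ MS 𝒢 X n) (hEp : E ≫ R.par (tp X n) = R.par (tp X n) ≫ E)
    (hEa : ∀ b ∈ Dg 𝒢 (tp X n), b ≫ E ∈ alg R (tp X n))
    (hs : (-1 : K) ^ j = -(-1) ^ i) : E = 0 := by
  have hK := R_charZero R
  have h1 := main_trace hv hw hu hEM hEp hEa (one_mem 𝒢 _)
  have h2 : ((-1 : K) ^ i * (-1) ^ j) = -1 := by
    rw [hs, mul_neg, sgn_sq]
  rw [h2, neg_one_smul, sub_neg_eq_add, Category.id_comp, Der_add, Preadditive.add_comp,
    map_add] at h1
  obtain ⟨t1, ht1, ht1'⟩ := pos1 hv.idem n hE.idem (hE.ep _ hv.ev)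
  obtain ⟨t2, ht2, ht2'⟩ := pos1 hw.idem n hE.idem (hE.ep _ hw.ev)
  rw [ht1, ht2] at h1
  have h3 : t1 + t2 = 0 := by exact_mod_cast h1
  have hwv := hw.vpar
  have hwf := hw.fpar
  rw [hs] at hwv hwf
  exact fin_both hE hn (sgn_ne i) (sgn_sq i) hv.vpar hv.fpar hv.one hwv hwf hw.one
    (ht1' (by omega)) (ht2' (by omega))

lemma brk (hE : Good E) {a₁ a₂ : R.H.obj X ⟶ R.H.obj X} (h2 : Ev a₂)
    (B : R.H.obj (tp X n) ⟶ R.H.obj (tp X n)) :
    trc R (tp X n) (Der (a₁ ≫ a₂ - a₂ ≫ a₁) n ≫ B ≫ E) =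
      trc R (tp X n) (Der a₁ n ≫ (Der a₂ n ≫ B - B ≫ Der a₂ n) ≫ E) := by
  have e1 : Der (a₁ ≫ a₂ - a₂ ≫ a₁) n ≫ B ≫ E = Der a₁ n ≫ Der a₂ n ≫ B ≫ E -
      Der a₂ n ≫ (Der a₁ n ≫ B ≫ E) := by
    rw [← Der_comm, Preadditive.sub_comp]
    simp only [Category.assoc]
  have e2 : Der a₁ n ≫ (Der a₂ n ≫ B - B ≫ Der a₂ n) ≫ E = Der a₁ n ≫ Der a₂ n ≫ B ≫ E -
      (Der a₁ n ≫ B ≫ E) ≫ Der a₂ n := by
    simp only [Preadditive.sub_comp, Preadditive.comp_sub, Category.assoc]
    rw [hE.der _ h2]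
  rw [e1, e2, map_sub, map_sub, trc_swap (Der a₂ n)]

/-- The case of equal parities. -/
lemma caseB (hv : Letter 𝒢 i v f) (hw : Letter 𝒢 j w g) (hu : Unsep 𝒢 X i j) (hE : Good E)
    (hij : j ≠ i)
    (hEM : E ∈ MS 𝒢 X n) (hEp : E ≫ R.par (tp X n) = R.par (tp X n) ≫ E)
    (hEa : ∀ b ∈ Dg 𝒢 (tp X n), b ≫ E ∈ alg R (tp X n))
    (hs : (-1 : K) ^ j = (-1) ^ i) : Der (rk f v - rk g w) n ≫ E = 0 := by
  have hK := R_charZero R
  obtain ⟨D, hD⟩ := exists_isDeg (𝒢 := 𝒢) X
  obtain ⟨c, hc⟩ := isDeg_der hD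
  have hDm : Der D n ∈ Dg 𝒢 (tp X n) := by
    have h1 := Submodule.sub_mem _ (hc n).mem (Submodule.smul_mem _ c (one_mem 𝒢 (tp X n)))
    rwa [add_sub_cancel_right] at h1
  have h1 := main_trace hv hw hu hEM hEp hEa hDm
  rw [hs, sgn_sq, one_smul] at h1
  have hgv : g v = 0 := hv.cross hw hij
  have hfw : f w = 0 := hw.cross hv (Ne.symm hij)
  have hz : rk f v - rk g w = rk f w ≫ rk g v - rk g v ≫ rk f w := by
    rw [rk_rk, rk_rk, hv.one, hw.one, one_smul, one_smul]
  have hwv := hw.vpar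
  rw [hs] at hwv
  have hwf := hw.fpar
  rw [hs] at hwf
  have ev2 : Ev (rk g v) := rk_ev hwf hv.vpar
  have hDE : D ∈ Dg 𝒢 X := hD.mem
  have hDv : D.hom v = (i : K) • v := hv.apply (hD i)
  have hgD : g ∘ₗ D.hom = (j : K) • g := by
    refine hw.dual ?_
    rw [← D_comm (gr_mem 𝒢 X j) hDE]
    exact hD j
  -- the trace of the product
  have k1 : trc R (tp X n) (Der (rk f w) n ≫ Der (rk g v) n ≫ E) = 0 := by
    rw [hz, brk hE ev2, Der_comm, rk_right, rk_left, hDv, hgD, rk_smul, rk_smul_left, ← sub_smul,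
      Der_smul, Linear.smul_comp, Linear.comp_smul, map_smul, smul_eq_mul] at h1
    refine (mul_eq_zero.1 h1).resolve_left (fun h => ?_)
    have h' : (j : K) = i := (sub_eq_zero.1 h).symm
    exact hij (by exact_mod_cast h')
  have hpq : rk f v ≫ rk g w = rk g w ≫ rk f v := by
    rw [rk_rk, rk_rk, hgv, hfw, zero_smul, zero_smul]
  have k2 : trc R (tp X n) ((Der (rk f v) n - Der (rk g w) n) ≫
      (Der (rk f v) n - Der (rk g w) n) ≫ E) = 0 := by
    rw [← Der_sub]
    have e1 : rk g v ≫ (rk f v - rk g w) - (rk f v - rk g w) ≫ rk g v = (2 : K) • rk g v := by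
      rw [Preadditive.comp_sub, Preadditive.sub_comp, rk_rk, rk_rk, rk_rk, rk_rk, hv.one, hgv,
        hw.one]
      simp only [zero_smul, one_smul, sub_zero, zero_sub, sub_neg_eq_add, two_smul]
    have e2 := brk (a₁ := rk f w) hE ev2 (Der (rk f v - rk g w) n)
    rw [← hz, Der_comm, e1, Der_smul, Linear.smul_comp, Linear.comp_smul, map_smul, k1,
      smul_zero] at e2
    exact e2
  have k3 := pos2 hv.idem hw.idem hpq n hE.idem (hE.ep _ hv.ev) (hE.ep _ hw.ev) k2
  rwa [← Der_sub] at k3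

/-- The operators whose derivation is killed by `E`. -/
def In (E : R.H.obj (tp X n) ⟶ R.H.obj (tp X n)) (φ : R.H.obj X ⟶ R.H.obj X) : Prop :=
  Der φ n ≫ E = 0

lemma In.add {φ ψ : R.H.obj X ⟶ R.H.obj X} (h1 : In E φ) (h2 : In E ψ) : In E (φ + ψ) := by
  unfold In at *
  rw [Der_add, Preadditive.add_comp, h1, h2, add_zero]

lemma In.smul {φ : R.H.obj X ⟶ R.H.obj X} (c : K) (h1 : In E φ) : In E (c • φ) := by
  unfold In at *
  rw [Der_smul, Linear.smul_comp, h1, smul_zero]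

lemma In.sub {φ ψ : R.H.obj X ⟶ R.H.obj X} (h1 : In E φ) (h2 : In E ψ) : In E (φ - ψ) := by
  unfold In at *
  rw [Der_sub, Preadditive.sub_comp, h1, h2, sub_zero]

lemma In.of_smul {φ : R.H.obj X ⟶ R.H.obj X} {c : K} (hc : c ≠ 0) (h1 : In E (c • φ)) :
    In E φ := by
  have h2 := h1.smul c⁻¹
  rwa [smul_smul, inv_mul_cancel₀ hc, one_smul] at h2

lemma In.br (hE : Good E) {φ ψ : R.H.obj X ⟶ R.H.obj X} (h1 : In E φ) (h2 : Ev ψ) :
    In E (φ ≫ ψ - ψ ≫ φ) := by
  unfold In at *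
  rw [← Der_comm, Preadditive.sub_comp, Category.assoc, Category.assoc, h1, comp_zero, sub_zero,
    ← hE.der _ h2, ← Category.assoc, h1, zero_comp]

/-- The ideal argument for a pure object. -/
lemma pure_in (hE : Good E) (hev : ∀ φ : R.H.obj X ⟶ R.H.obj X, Ev φ) (hfv : f v = 1)
    (hgw : g w = 1) (hgv : g v = 0) (hfw : f w = 0) (hz : In E (rk f v - rk g w))
    (y : R.H.obj X) (k : R.H.obj X →ₗ[K] K) : In E (rk k y - k y • rk f v) := by
  have hK := R_charZero R
  have h2 : (2 : K) ≠ 0 := two_ne_zero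
  -- vectors in the kernel of `f`
  have s1 : ∀ y : R.H.obj X, f y = 0 → In E (rk f y + g y • rk f w) := by
    intro y hy
    have h1 := hz.br hE (hev (rk f y))
    have h3 : (rk f v - rk g w) ≫ rk f y - rk f y ≫ (rk f v - rk g w) =
        rk f y + g y • rk f w := by
      rw [Preadditive.comp_sub, Preadditive.sub_comp, rk_rk, rk_rk, rk_rk, rk_rk, hfv, hfw, hy]
      simp only [zero_smul, one_smul, sub_zero, zero_sub, sub_neg_eq_add]
    rwa [h3] at h1
  have s2 : In E (rk f w) := by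
    have h1 := s1 w hfw
    rw [hgw, one_smul, ← two_smul K] at h1
    exact h1.of_smul h2
  have s3 : ∀ y : R.H.obj X, f y = 0 → In E (rk f y) := by
    intro y hy
    have h1 := (s1 y hy).sub (s2.smul (g y))
    rwa [add_sub_cancel_right] at h1
  -- functionals vanishing on `v`
  have t1 : ∀ k : R.H.obj X →ₗ[K] K, k v = 0 → In E (rk k v + k w • rk g v) := by
    intro k hk
    have h1 := hz.br hE (hev (rk k v))
    have h3 : (rk f v - rk g w) ≫ rk k v - rk k v ≫ (rk f v - rk g w) =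
        -(rk k v + k w • rk g v) := by
      rw [Preadditive.comp_sub, Preadditive.sub_comp, rk_rk, rk_rk, rk_rk, rk_rk, hfv, hgv, hk]
      simp only [zero_smul, one_smul, sub_zero, zero_sub]
      abel
    rw [h3] at h1
    have h4 := h1.smul (-1 : K)
    rwa [neg_one_smul, neg_neg] at h4
  have t2 : In E (rk g v) := by
    have h1 := t1 g hgv
    rw [hgw, one_smul, ← two_smul K] at h1
    exact h1.of_smul h2
  have t3 : ∀ k : R.H.obj X →ₗ[K] K, k v = 0 → In E (rk k v) := by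
    intro k hk
    have h1 := (t1 k hk).sub (t2.smul (k w))
    rwa [add_sub_cancel_right] at h1
  -- both
  have u1 : ∀ (y : R.H.obj X) (k : R.H.obj X →ₗ[K] K), f y = 0 → k v = 0 →
      In E (rk k y - k y • rk f v) := by
    intro y k hy hk
    have h1 := (s3 y hy).br hE (hev (rk k v))
    rw [rk_rk, rk_rk, hfv, one_smul] at h1
    have h4 := h1.smul (-1 : K)
    rwa [neg_one_smul, neg_sub] at h4
  have hy' : f (y - f y • v) = 0 := by
    rw [map_sub, map_smul, hfv, smul_eq_mul, mul_one, sub_self]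
  have hk' : (k - k v • f) v = 0 := by
    rw [LinearMap.sub_apply, LinearMap.smul_apply, hfv, smul_eq_mul, mul_one, sub_self]
  have a1 := u1 _ _ hy' hk'
  have a2 := (s3 _ hy').smul (k v)
  have a3 := (t3 _ hk').smul (f y)
  have a4 := (a1.add a2).add a3
  have e1 : rk (k - k v • f) (y - f y • v) - (k - k v • f) (y - f y • v) • rk f v +
      k v • rk f (y - f y • v) + f y • rk (k - k v • f) v = rk k y - k y • rk f v := by
    ext x
    have e2 : ∀ a b : R.H.obj X ⟶ R.H.obj X, (a + b).hom x = a.hom x + b.hom x := fun _ _ => rfl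
    have e3 : ∀ a b : R.H.obj X ⟶ R.H.obj X, (a - b).hom x = a.hom x - b.hom x := fun _ _ => rfl
    have e4 : ∀ (c : K) (a : R.H.obj X ⟶ R.H.obj X), (c • a).hom x = c • a.hom x :=
      fun _ _ => rfl
    simp only [e2, e3, e4, rk_apply, LinearMap.sub_apply, LinearMap.smul_apply, smul_eq_mul,
      map_sub, map_smul, hfv]
    module
  rwa [e1] at a4

/-- If the object is pure, the degree operator is a scalar on the summand. -/
lemma pure_scal (hE : Good E) (hn : 1 ≤ n) (hE0 : E ≠ 0)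
    (hev : ∀ φ : R.H.obj X ⟶ R.H.obj X, Ev φ) (hfv : f v = 1)
    (hgw : g w = 1) (hgv : g v = 0) (hfw : f w = 0) (hz : In E (rk f v - rk g w))
    (D : R.H.obj X ⟶ R.H.obj X) : ∃ c : K, Der D n ≫ E = c • E := by
  have hK := R_charZero R
  obtain ⟨ι, hι, b, c, -, hbc⟩ := sum_rk (R := R) X
  have key : ∀ T : R.H.obj X ⟶ R.H.obj X, ∃ t : K, Der T n ≫ E = t • (Der (rk f v) n ≫ E) := by
    intro T
    refine ⟨∑ i, c i (T.hom (b i)), ?_⟩
    have e1 : T = ∑ i, rk (c i) (T.hom (b i)) := by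
      have e2 : T = (∑ i, rk (c i) (b i)) ≫ T := by rw [hbc, Category.id_comp]
      conv_lhs => rw [e2]
      rw [Preadditive.sum_comp]
      exact Finset.sum_congr rfl fun i _ => rk_right _ _ _
    have e3 : Der T n ≫ E = ∑ i, Der (rk (c i) (T.hom (b i))) n ≫ E := by
      conv_lhs => rw [e1]
      rw [Der_sum, Preadditive.sum_comp]
    rw [e3, Finset.sum_smul]
    refine Finset.sum_congr rfl fun i _ => ?_
    have h1 := pure_in hE hev hfv hgw hgv hfw hz (T.hom (b i)) (c i)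
    unfold In at h1
    rw [Der_sub, Preadditive.sub_comp, Der_smul, Linear.smul_comp, sub_eq_zero] at h1
    exact h1
  obtain ⟨t, ht⟩ := key (𝟙 _)
  obtain ⟨r, hr⟩ := key D
  rw [Der_one, Linear.smul_comp, Category.id_comp] at ht
  have ht0 : t ≠ 0 := by
    intro h
    rw [h, zero_smul] at ht
    have h3 : (n : K) ≠ 0 := by
      have : n ≠ 0 := by omega
      exact_mod_cast this
    exact hE0 ((smul_eq_zero.1 ht).resolve_left h3)
  refine ⟨r * (t⁻¹ * n), ?_⟩
  rw [hr, ← smul_smul, ← smul_smul, ht, smul_smul t⁻¹ t, inv_mul_cancel₀ ht0, one_smul]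

end two

/-- An idempotent combination of exchanges on which the degree is not constant and whose products
with the weight projectors are algebraic: then the weight projectors are algebraic. -/
theorem alg_of_good {X : C} {n : ℕ} {E : R.H.obj (tp X n) ⟶ R.H.obj (tp X n)} (hE : Good E)
    (hn : 1 ≤ n) (hEM : E ∈ MS 𝒢 X n) (hEp : E ≫ R.par (tp X n) = R.par (tp X n) ≫ E)
    (hEa : ∀ b ∈ Dg 𝒢 (tp X n), b ≫ E ∈ alg R (tp X n)) {k l : ℤ} (hkl : k ≠ l)
    (hk : 𝒢.gr (tp X n) k ≫ E ≠ 0) (hl : 𝒢.gr (tp X n) l ≫ E ≠ 0) (i : ℤ) :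
    𝒢.gr X i ∈ alg R X := by
  have hK := R_charZero R
  by_contra hi
  have hE0 : E ≠ 0 := by
    intro h
    rw [h, comp_zero] at hk
    exact hk rfl
  have hi0 : 𝒢.gr X i ≠ 0 := by
    intro h
    rw [h] at hi
    exact hi (Submodule.zero_mem _)
  obtain ⟨j, hji, hj0, hu⟩ := exists_unsep hi
  obtain ⟨v, f, hv⟩ := exists_letter hi0
  obtain ⟨w, g, hw⟩ := exists_letter hj0
  have hgv : g v = 0 := hv.cross hw hji
  have hfw : f w = 0 := hw.cross hv (Ne.symm hji)
  by_cases hs : (-1 : K) ^ j = (-1) ^ i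
  · have hz := caseB hv hw hu hE hji hEM hEp hEa hs
    by_cases hex : ∃ m, 𝒢.gr X m ≠ 0 ∧ (-1 : K) ^ m ≠ (-1) ^ i
    · obtain ⟨m, hm0, hms⟩ := hex
      obtain ⟨u, h, hu'⟩ := exists_letter hm0
      have hms' : (-1 : K) ^ m = -(-1) ^ i :=
        (mul_self_eq_mul_self_iff.1 ((sgn_sq m).trans (sgn_sq i).symm)).resolve_left hms
      have hmi : m ≠ i := fun h => hms (by rw [h])
      have hmj : m ≠ j := fun h => hms (by rw [h, hs])
      have hup := hu'.vpar
      have huf := hu'.fpar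
      rw [hms'] at hup huf
      have hfu : f u = 0 := hu'.cross hv (Ne.symm hmi)
      have hgu : g u = 0 := hu'.cross hw (Ne.symm hmj)
      have hhv : h v = 0 := hv.cross hu' hmi
      have hhw : h w = 0 := hw.cross hu' hmj
      have happ : ∀ x, (rk f v - rk g w).hom x = f x • v - g x • w := fun _ => rfl
      have h4 := step4 hE (sgn_ne i) hv.vpar hv.fpar hv.one hup huf hu'.one
        (z := rk f v - rk g w) ?_ hz ?_ ?_ ?_ ?_
      · exact hE0 (fin_both hE hn (sgn_ne i) (sgn_sq i) hv.vpar hv.fpar hv.one hup huf hu'.one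
          h4.1 h4.2)
      · have h5 := theta_ev hv hw 1
        rwa [one_smul] at h5
      · ext x
        rw [LinearMap.comp_apply, happ, map_sub, map_smul, map_smul, hv.one, hfw]
        simp
      · rw [happ, hv.one, hgv, one_smul, zero_smul, sub_zero]
      · rw [happ, hfu, hgu, zero_smul, zero_smul, sub_zero]
      · ext x
        rw [LinearMap.comp_apply, happ, map_sub, map_smul, map_smul, hhv, hhw]
        simp
    · push Not at hex
      -- the object is pure
      have hpar : R.par X = ((-1 : K) ^ i) • 𝟙 _ := by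
        obtain ⟨d, -, hd⟩ := 𝒢.gr_sum X
        have h2 : R.par X = 𝟙 _ ≫ R.par X := by rw [Category.id_comp]
        rw [h2, ← hd, Preadditive.sum_comp, Finset.smul_sum]
        refine Finset.sum_congr rfl (fun m _ => ?_)
        rw [𝒢.gr_par]
        by_cases hm : 𝒢.gr X m = 0
        · rw [hm, smul_zero, smul_zero]
        · rw [hex m hm]
      have hev : ∀ φ : R.H.obj X ⟶ R.H.obj X, Ev φ := by
        intro φ
        unfold Ev
        rw [hpar, Linear.comp_smul, Linear.smul_comp, Category.comp_id, Category.id_comp]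
      obtain ⟨D, hD⟩ := exists_isDeg (𝒢 := 𝒢) X
      obtain ⟨c, hc⟩ := isDeg_der hD
      obtain ⟨t, ht⟩ := pure_scal hE hn hE0 hev hv.one hw.one hgv hfw hz D
      have hYE : (Der D n + c • 𝟙 (R.H.obj (tp X n))) ≫ E = (t + c) • E := by
        rw [Preadditive.add_comp, ht, Linear.smul_comp, Category.id_comp, add_smul]
      have hm : ∀ m : ℤ, 𝒢.gr (tp X n) m ≫ E ≠ 0 → (m : K) = t + c := by
        intro m hm
        have h1 := congrArg (fun z => z ≫ E) (hc n m)
        simp only [Category.assoc, Linear.smul_comp] at h1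
        rw [hYE, Linear.comp_smul] at h1
        have h2 : ((t + c) - m) • (𝒢.gr (tp X n) m ≫ E) = 0 := by
          rw [sub_smul, h1, sub_self]
        exact (sub_eq_zero.1 ((smul_eq_zero.1 h2).resolve_right hm)).symm
      have h3 : (k : K) = l := (hm k hk).trans (hm l hl).symm
      exact hkl (by exact_mod_cast h3)
  · have hs' : (-1 : K) ^ j = -(-1) ^ i :=
      (mul_self_eq_mul_self_iff.1 ((sgn_sq j).trans (sgn_sq i).symm)).resolve_left hs
    exact hE0 (caseA hv hw hu hE hn hEM hEp hEa hs')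

/-- The Künneth conjecture passes to retracts. -/
lemma kun_retract {X Y : C} (i : Y ⟶ X) (r : X ⟶ Y) (hir : i ≫ r = 𝟙 Y)
    (h : Kun 𝒢 X) : Kun 𝒢 Y := by
  intro k
  have h2 := alg_sandwich i r (h k)
  have h3 : R.H.map i ≫ 𝒢.gr X k ≫ R.H.map r = 𝒢.gr Y k := by
    rw [← Category.assoc, 𝒢.gr_natural, Category.assoc, ← R.H.map_comp, hir, R.H.map_id,
      Category.comp_id]
  rwa [h3] at h2

lemma kun_unit : Kun 𝒢 (𝟙_ C) := by
  intro k
  obtain ⟨c, hc⟩ := unit_scal (𝒢.gr (𝟙_ C) k)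
  rw [hc]
  exact Submodule.smul_mem _ _ (one_alg _)

lemma bx_alg {X Y : C} {a : R.H.obj X ⟶ R.H.obj X} {b : R.H.obj Y ⟶ R.H.obj Y}
    (ha : a ∈ alg R X) (hb : b ∈ alg R Y) : bx R a b ∈ alg R (X ⊗ Y) := by
  refine Submodule.span_induction (p := fun a _ => bx R a b ∈ alg R (X ⊗ Y)) ?_ ?_ ?_ ?_ ha
  · rintro _ ⟨f, rfl⟩
    refine Submodule.span_induction (p := fun b _ => bx R (R.H.map f) b ∈ alg R (X ⊗ Y))
      ?_ ?_ ?_ ?_ hb
    · rintro _ ⟨g, rfl⟩
      change bx R (R.H.map f) (R.H.map g) ∈ _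
      rw [bx_map]
      exact map_mem _
    · rw [bx_zero_right]
      exact Submodule.zero_mem _
    · intro x y _ _ hx hy
      rw [bx_add_right]
      exact Submodule.add_mem _ hx hy
    · intro c x _ hx
      rw [bx_smul_right]
      exact Submodule.smul_mem _ _ hx
  · rw [bx_zero_left]
    exact Submodule.zero_mem _
  · intro x y _ _ hx hy
    rw [bx_add_left]
    exact Submodule.add_mem _ hx hy
  · intro c x _ hx
    rw [bx_smul_left]
    exact Submodule.smul_mem _ _ hx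

lemma kun_tensor {X Y : C} (hX : Kun 𝒢 X) (hY : Kun 𝒢 Y) : Kun 𝒢 (X ⊗ Y) := by
  intro k
  obtain ⟨s, -, hs⟩ := 𝒢.gr_sum X
  rw [gr_tp X Y hs]
  exact Submodule.sum_mem _ (fun i _ => bx_alg (hX i) (hY _))

lemma kun_tp {X : C} (h : Kun 𝒢 X) (n : ℕ) : Kun 𝒢 (tp X n) := by
  induction n with
  | zero => exact kun_unit
  | succ n ih => exact kun_tensor ih h

/-- If the realisation of `P` is zero or concentrated in one degree, the Künneth conjecture holds
for `P` trivially. -/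
lemma kun_of_one_degree {P : C} (h : ¬ TwoDegrees 𝒢 P) : Kun 𝒢 P := by
  intro k
  by_cases hk : 𝒢.gr P k = 0
  · rw [hk]
    exact Submodule.zero_mem _
  · obtain ⟨s, hs, hsum⟩ := 𝒢.gr_sum P
    have h1 : 𝒢.gr P k = 𝟙 _ := by
      rw [← hsum, Finset.sum_eq_single k]
      · intro b _ hb
        by_contra hb0
        exact h ⟨b, k, hb, hb0, hk⟩
      · intro hnot
        exact hs k hnot
    rw [h1]
    exact one_alg P

/-- **The Künneth conjecture for Schur functors.** -/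
theorem schur_kun {M P : C} {n : ℕ} (hP : IsSchurSummand M P n) (h2 : TwoDegrees 𝒢 P) :
    Kun 𝒢 P ↔ Kun 𝒢 M := by
  have hK := R_charZero R
  obtain ⟨k, l, hkl, hk, hl⟩ := h2
  obtain ⟨i, r, hir, he⟩ := hP
  constructor
  · intro h m
    set e : End (tp M n) := (r ≫ i : tp M n ⟶ tp M n) with hedef
    have hmap : R.H.map e = R.H.map r ≫ R.H.map i := by rw [hedef, Functor.map_comp]
    have hee : e * e = e := by
      rw [End.mul_def]
      change (r ≫ i) ≫ (r ≫ i) = r ≫ i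
      rw [Category.assoc, reassoc_of% hir]
    have hgr : ∀ k, R.H.map i ≫ (𝒢.gr (tp M n) k ≫ R.H.map e) ≫ R.H.map r = 𝒢.gr P k := by
      intro k
      rw [hmap, Category.assoc, ← Category.assoc (R.H.map i), 𝒢.gr_natural]
      simp only [Category.assoc]
      rw [← R.H.map_comp i r, hir, R.H.map_id, Category.comp_id, ← R.H.map_comp i r, hir,
        R.H.map_id, Category.comp_id]
    have hne : ∀ k, 𝒢.gr P k ≠ 0 → 𝒢.gr (tp M n) k ≫ R.H.map e ≠ 0 := by
      intro k hk h0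
      apply hk
      rw [← hgr k, h0, zero_comp, comp_zero]
    have hgm : ∀ k, 𝒢.gr (tp M n) k ≫ R.H.map e ∈ alg R (tp M n) := by
      intro k
      have h2 := alg_sandwich r i (h k)
      have h3 : R.H.map r ≫ 𝒢.gr P k ≫ R.H.map i = 𝒢.gr (tp M n) k ≫ R.H.map e := by
        rw [hmap, ← Category.assoc, 𝒢.gr_natural, Category.assoc]
      rwa [h3] at h2
    have hn : 1 ≤ n := by
      by_contra hn
      have hn0 : n = 0 := by omega
      subst hn0
      have h1 := hne k hk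
      have h2 := hne l hl
      obtain ⟨a, ha⟩ := unit_scal (𝒢.gr (𝟙_ C) k)
      obtain ⟨b, hb⟩ := unit_scal (𝒢.gr (𝟙_ C) l)
      have h3 := 𝒢.gr_orth (𝟙_ C) k l hkl
      have h4 : 𝒢.gr (tp M 0) k = a • 𝟙 _ := ha
      have h5 : 𝒢.gr (tp M 0) l = b • 𝟙 _ := hb
      have h6 : (a * b) • 𝟙 (R.H.obj (tp M 0)) = 0 := by
        have h7 : 𝒢.gr (tp M 0) k ≫ 𝒢.gr (tp M 0) l = 0 := h3
        rw [h4, h5, Linear.smul_comp, Linear.comp_smul, Category.comp_id, smul_smul] at h7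
        exact h7
      rcases smul_eq_zero.1 h6 with h7 | h7
      · rcases mul_eq_zero.1 h7 with h8 | h8
        · rw [h4, h8, zero_smul, zero_comp] at h1
          exact h1 rfl
        · rw [h5, h8, zero_smul, zero_comp] at h2
          exact h2 rfl
      · rw [h4, Linear.smul_comp, h7, zero_comp, smul_zero] at h1
        exact h1 rfl
    refine alg_of_good (good_adj he hee) hn (MS_adj he) (R.par_natural e) (fun b hb => ?_)
      hkl (hne k hk) (hne l hl) m
    exact D_ind (p := fun b => b ≫ R.H.map e ∈ alg R (tp M n)) hgm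
      (by rw [zero_comp]; exact Submodule.zero_mem _)
      (fun x y hx hy => by rw [Preadditive.add_comp]; exact Submodule.add_mem _ hx hy)
      (fun c x hx => by rw [Linear.smul_comp]; exact Submodule.smul_mem _ _ hx) hb
  · intro h
    exact kun_retract i r hir (kun_tp h n)

end

end Pool.Agent.V8H31.KS
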