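import Pool.Agent.V8H31.KS.Gr

/-!
# Monomials in exchanges and weight projectors
-/

set_option autoImplicit false
set_option linter.unusedSectionVars false
set_option linter.unusedSimpArgs false
set_option backward.isDefEq.respectTransparency false
set_option backward.defeqAttrib.useBackward true

open CategoryTheory Limits MonoidalCategory
open Pool.Agent.Y112.SR Pool.Agent.Y112.KD
open Pool.Agent.Y112.SC (bx bx_comp bx_one bx_map bx_par map_whiskerRight_eq bx_sw bx_add_left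
  bx_add_right bx_smul_left bx_smul_right bx_zero_left bx_zero_right PT PT_add PT_smul PT_comp
  PT_bx PT_sw PTn PTn_map up trace_PTn Sg Sg_Sg Sg_braid swap_sq)

namespace Pool.Agent.V8H31.KS

universe v u w

open Functor.LaxMonoidal Functor.OplaxMonoidal

section

variable {C : Type u} [Category.{v} C] [Preadditive C] [MonoidalCategory C] [SymmetricCategory C]
  {K : Type w} [Field K] {R : SuperRealisation C K} (𝒢 : ZGr R)

/-- The span of the weight projectors. -/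
def Dg (X : C) : Submodule K (R.H.obj X ⟶ R.H.obj X) := Submodule.span K (Set.range (𝒢.gr X))

lemma gr_mem (X : C) (i : ℤ) : 𝒢.gr X i ∈ Dg 𝒢 X := Submodule.subset_span ⟨i, rfl⟩

lemma one_mem (X : C) : 𝟙 (R.H.obj X) ∈ Dg 𝒢 X := by
  obtain ⟨s, -, h⟩ := 𝒢.gr_sum X
  rw [← h]
  exact Submodule.sum_mem _ (fun i _ => gr_mem 𝒢 X i)

variable {𝒢}

lemma D_ind {X : C} {p : (R.H.obj X ⟶ R.H.obj X) → Prop} (h1 : ∀ i, p (𝒢.gr X i)) (h0 : p 0)
    (ha : ∀ x y, p x → p y → p (x + y)) (hs : ∀ (c : K) x, p x → p (c • x))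
    {b : R.H.obj X ⟶ R.H.obj X} (hb : b ∈ Dg 𝒢 X) : p b := by
  refine Submodule.span_induction (p := fun b _ => p b) ?_ h0 (fun x y _ _ => ha x y)
    (fun c x _ => hs c x) hb
  rintro _ ⟨i, rfl⟩
  exact h1 i

lemma gr_gr (X : C) (i j : ℤ) : 𝒢.gr X i ≫ 𝒢.gr X j = if i = j then 𝒢.gr X i else 0 := by
  split_ifs with h
  · rw [h, 𝒢.gr_idem]
  · exact 𝒢.gr_orth X i j h

lemma D_comp {X : C} {a b : R.H.obj X ⟶ R.H.obj X} (ha : a ∈ Dg 𝒢 X) (hb : b ∈ Dg 𝒢 X) :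
    a ≫ b ∈ Dg 𝒢 X := by
  refine D_ind (p := fun a => a ≫ b ∈ Dg 𝒢 X) (fun i => ?_) ?_ (fun x y hx hy => ?_)
    (fun c x hx => ?_) ha
  · refine D_ind (p := fun b => 𝒢.gr X i ≫ b ∈ Dg 𝒢 X) (fun j => ?_) ?_ (fun x y hx hy => ?_)
      (fun c x hx => ?_) hb
    · rw [gr_gr]
      split_ifs
      · exact gr_mem 𝒢 X i
      · exact Submodule.zero_mem _
    · rw [comp_zero]; exact Submodule.zero_mem _
    · rw [Preadditive.comp_add]; exact Submodule.add_mem _ hx hy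
    · rw [Linear.comp_smul]; exact Submodule.smul_mem _ _ hx
  · rw [zero_comp]; exact Submodule.zero_mem _
  · rw [Preadditive.add_comp]; exact Submodule.add_mem _ hx hy
  · rw [Linear.smul_comp]; exact Submodule.smul_mem _ _ hx

lemma D_comm {X : C} {a b : R.H.obj X ⟶ R.H.obj X} (ha : a ∈ Dg 𝒢 X) (hb : b ∈ Dg 𝒢 X) :
    a ≫ b = b ≫ a := by
  refine D_ind (p := fun a => a ≫ b = b ≫ a) (fun i => ?_) ?_ (fun x y hx hy => ?_)
    (fun c x hx => ?_) ha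
  · refine D_ind (p := fun b => 𝒢.gr X i ≫ b = b ≫ 𝒢.gr X i) (fun j => ?_) ?_
      (fun x y hx hy => ?_) (fun c x hx => ?_) hb
    · rw [gr_gr, gr_gr]
      by_cases h : i = j
      · rw [if_pos h, if_pos h.symm, h]
      · rw [if_neg h, if_neg (Ne.symm h)]
    · rw [comp_zero, zero_comp]
    · rw [Preadditive.comp_add, Preadditive.add_comp, hx, hy]
    · rw [Linear.comp_smul, Linear.smul_comp, hx]
  · rw [comp_zero, zero_comp]
  · rw [Preadditive.comp_add, Preadditive.add_comp, hx, hy]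
  · rw [Linear.comp_smul, Linear.smul_comp, hx]

variable (𝒢)

lemma par_mem (X : C) : R.par X ∈ Dg 𝒢 X := by
  obtain ⟨s, -, h⟩ := 𝒢.gr_sum X
  have h1 : R.par X = ∑ i ∈ s, (-1 : K) ^ i • 𝒢.gr X i := by
    have h2 : R.par X = 𝟙 _ ≫ R.par X := by rw [Category.id_comp]
    rw [h2, ← h, Preadditive.sum_comp]
    exact Finset.sum_congr rfl (fun i _ => 𝒢.gr_par X i)
  rw [h1]
  exact Submodule.sum_mem _ (fun i _ => Submodule.smul_mem _ _ (gr_mem 𝒢 X i))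

variable {𝒢}

lemma D_par {X : C} {b : R.H.obj X ⟶ R.H.obj X} (hb : b ∈ Dg 𝒢 X) :
    b ≫ R.par X = R.par X ≫ b := D_comm hb (par_mem 𝒢 X)

lemma Sg_nat (h2 : (2 : K) ≠ 0) {X : C} {n : ℕ} (a : R.H.obj (tp X n) ⟶ R.H.obj (tp X n))
    {b c : R.H.obj X ⟶ R.H.obj X} (hb : b ≫ R.par X = R.par X ≫ b)
    (hc : c ≫ R.par X = R.par X ≫ c) :
    bx R (bx R a b) c ≫ Sg R X n = Sg R X n ≫ bx R (bx R a c) b :=
  bx_sw R h2 a b c hb hc

variable (𝒢)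

/-- The monomials in the exchanges of neighbouring factors and the weight operators. -/
inductive Mon (X : C) : ∀ n : ℕ, (R.H.obj (tp X n) ⟶ R.H.obj (tp X n)) → Prop
  | one (n : ℕ) : Mon X n (𝟙 _)
  | box (n : ℕ) (a : R.H.obj (tp X n) ⟶ R.H.obj (tp X n)) (b : R.H.obj X ⟶ R.H.obj X) :
      Mon X n a → b ∈ Dg 𝒢 X → Mon X (n + 1) (bx R a b)
  | swp (n : ℕ) (a a' : R.H.obj (tp X (n + 1)) ⟶ R.H.obj (tp X (n + 1)))
      (b : R.H.obj X ⟶ R.H.obj X) : Mon X (n + 1) a → Mon X (n + 1) a' → b ∈ Dg 𝒢 X →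
      Mon X (n + 2) (bx R a b ≫ Sg R X n ≫ bx R a' (𝟙 _))

variable {𝒢}

lemma Mon.sg (X : C) (n : ℕ) : Mon 𝒢 X (n + 2) (Sg R X n) := by
  have h := Mon.swp n (𝟙 _) (𝟙 _) (𝟙 _) (Mon.one (𝒢 := 𝒢) (X := X) (n + 1)) (Mon.one (n + 1))
    (one_mem 𝒢 X)
  rwa [bx_one, Category.comp_id, Category.id_comp] at h

lemma Mon.compBox (h2 : (2 : K) ≠ 0) {X : C} {n : ℕ}
    (IH : ∀ x y, Mon 𝒢 X n x → Mon 𝒢 X n y → Mon 𝒢 X n (x ≫ y))
    {x : R.H.obj (tp X (n + 1)) ⟶ R.H.obj (tp X (n + 1))} (hx : Mon 𝒢 X (n + 1) x)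
    {c : R.H.obj (tp X n) ⟶ R.H.obj (tp X n)} (hc : Mon 𝒢 X n c) {d : R.H.obj X ⟶ R.H.obj X}
    (hd : d ∈ Dg 𝒢 X) : Mon 𝒢 X (n + 1) (x ≫ bx R c d) := by
  cases hx with
  | one => rw [Category.id_comp]; exact Mon.box _ _ _ hc hd
  | box _ a b ha hb => rw [bx_comp]; exact Mon.box _ _ _ (IH _ _ ha hc) (D_comp hb hd)
  | swp m a a' b ha ha' hb =>
    have e1 : Sg R X m ≫ bx R (𝟙 _) d = bx R (bx R (𝟙 _) d) (𝟙 _) ≫ Sg R X m := by
      rw [Sg_nat h2 _ (D_par hd) (D_par (one_mem 𝒢 X)), bx_one]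
    have e2 : (bx R a b ≫ Sg R X m ≫ bx R a' (𝟙 _)) ≫ bx R c d =
        bx R (a ≫ bx R (𝟙 _) d) b ≫ Sg R X m ≫ bx R (a' ≫ c) (𝟙 _) := by
      have e3 : bx R a' (𝟙 _) ≫ bx R c d = bx R (𝟙 _) d ≫ bx R (a' ≫ c) (𝟙 _) := by
        rw [bx_comp, bx_comp, Category.id_comp, Category.id_comp, Category.comp_id]
      rw [Category.assoc, Category.assoc, e3, ← Category.assoc (Sg R X m), e1, Category.assoc,
        ← Category.assoc (bx R a b), bx_comp, Category.comp_id]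
    rw [e2]
    exact Mon.swp m _ _ _ (IH _ _ ha (Mon.box _ _ _ (Mon.one _) hd)) (IH _ _ ha' hc) hb

lemma Mon.compSg (h2 : (2 : K) ≠ 0) {X : C} {m : ℕ}
    (IH : ∀ x y, Mon 𝒢 X (m + 1) x → Mon 𝒢 X (m + 1) y → Mon 𝒢 X (m + 1) (x ≫ y))
    {x : R.H.obj (tp X (m + 2)) ⟶ R.H.obj (tp X (m + 2))} (hx : Mon 𝒢 X (m + 2) x) :
    Mon 𝒢 X (m + 2) (x ≫ Sg R X m) := by
  cases hx with
  | one => rw [Category.id_comp]; exact Mon.sg X m
  | box _ a b ha hb =>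
    have h := Mon.swp m a (𝟙 _) b ha (Mon.one _) hb
    rwa [bx_one, Category.comp_id] at h
  | swp _ a a' b ha ha' hb =>
    cases ha' with
    | one =>
      rw [bx_one, Category.comp_id, Category.assoc, Sg_Sg, Category.comp_id]
      exact Mon.box _ _ _ ha hb
    | box _ h c hh hc =>
      have e1 : (bx R a b ≫ Sg R X m ≫ bx R (bx R h c) (𝟙 _)) ≫ Sg R X m =
          bx R (a ≫ bx R h (𝟙 _)) (b ≫ c) := by
        rw [Category.assoc, Category.assoc, Sg_nat h2 _ (D_par hc) (D_par (one_mem 𝒢 X)),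
          ← Category.assoc (Sg R X m), Sg_Sg, Category.id_comp, bx_comp]
      rw [e1]
      exact Mon.box _ _ _ (IH _ _ ha (Mon.box _ _ _ hh (one_mem 𝒢 X))) (D_comp hb hc)
    | swp m' h h' c hh hh' hc =>
      have e1 : (bx R a b ≫ Sg R X (m' + 1) ≫ bx R (bx R h c ≫ Sg R X m' ≫ bx R h' (𝟙 _)) (𝟙 _)) ≫
          Sg R X (m' + 1) = bx R (a ≫ bx R h (𝟙 _) ≫ Sg R X m') (b ≫ c) ≫ Sg R X (m' + 1) ≫
          bx R (Sg R X m' ≫ bx R h' (𝟙 _)) (𝟙 _) := by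
        have f1 : bx R (bx R h c ≫ Sg R X m' ≫ bx R h' (𝟙 _)) (𝟙 (R.H.obj X)) =
            bx R (bx R h c) (𝟙 _) ≫ bx R (Sg R X m') (𝟙 _) ≫ bx R (bx R h' (𝟙 _)) (𝟙 _) := by
          rw [bx_comp, bx_comp, Category.comp_id, Category.comp_id]
        have f2 : Sg R X (m' + 1) ≫ bx R (bx R h c) (𝟙 _) =
            bx R (bx R h (𝟙 _)) c ≫ Sg R X (m' + 1) :=
          (Sg_nat h2 _ (D_par (one_mem 𝒢 X)) (D_par hc)).symm
        have f3 : bx R (bx R h' (𝟙 _)) (𝟙 _) ≫ Sg R X (m' + 1) =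
            Sg R X (m' + 1) ≫ bx R (bx R h' (𝟙 _)) (𝟙 _) :=
          Sg_nat h2 _ (D_par (one_mem 𝒢 X)) (D_par (one_mem 𝒢 X))
        have f4 := Sg_braid R X m'
        have f5 : bx R (a ≫ bx R h (𝟙 _) ≫ Sg R X m') (b ≫ c) =
            bx R a b ≫ bx R (bx R h (𝟙 _)) c ≫ bx R (Sg R X m') (𝟙 _) := by
          rw [bx_comp, bx_comp, Category.comp_id]
        have f6 : bx R (Sg R X m' ≫ bx R h' (𝟙 _)) (𝟙 (R.H.obj X)) =
            bx R (Sg R X m') (𝟙 _) ≫ bx R (bx R h' (𝟙 _)) (𝟙 _) := by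
          rw [bx_comp, Category.comp_id]
        rw [f1, f5, f6]
        simp only [Category.assoc]
        rw [f3, reassoc_of% f2, reassoc_of% f4]
      rw [e1]
      exact Mon.swp _ _ _ _ (IH _ _ ha (IH _ _ (Mon.box _ _ _ hh (one_mem 𝒢 X)) (Mon.sg X m')))
        (IH _ _ (Mon.sg X m') (Mon.box _ _ _ hh' (one_mem 𝒢 X))) (D_comp hb hc)

/-- Products of monomials are monomials. -/
lemma Mon.comp (h2 : (2 : K) ≠ 0) {X : C} (n : ℕ) :
    ∀ x y, Mon 𝒢 X n x → Mon 𝒢 X n y → Mon 𝒢 X n (x ≫ y) := by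
  induction n with
  | zero =>
    intro x y hx hy
    cases hx
    rwa [Category.id_comp]
  | succ n IH =>
    intro x y hx hy
    cases hy with
    | one => rwa [Category.comp_id]
    | box _ c d hc hd => exact Mon.compBox h2 IH hx hc hd
    | swp m c c' d hc hc' hd =>
      rw [← Category.assoc, ← Category.assoc]
      exact Mon.compBox h2 IH (Mon.compSg h2 IH (Mon.compBox h2 IH hx hc hd)) hc' (one_mem 𝒢 X)

/-- Exchanges are monomials. -/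
lemma Mon.swap {X : C} {n : ℕ} {s : tp X n ⟶ tp X n} (hs : IsSwap X n s) :
    Mon 𝒢 X n (R.H.map s) := by
  induction hs with
  | last n => exact Mon.sg X n
  | lift n s hs ih =>
    rw [map_whiskerRight_eq]
    exact Mon.box _ _ _ ih (one_mem 𝒢 X)

variable (𝒢)

/-- The span of the monomials. -/
def MS (X : C) (n : ℕ) : Submodule K (R.H.obj (tp X n) ⟶ R.H.obj (tp X n)) :=
  Submodule.span K {x | Mon 𝒢 X n x}

variable {𝒢}

lemma MS_ind {X : C} {n : ℕ} {p : (R.H.obj (tp X n) ⟶ R.H.obj (tp X n)) → Prop}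
    (h1 : ∀ x, Mon 𝒢 X n x → p x) (h0 : p 0)
    (ha : ∀ x y, p x → p y → p (x + y)) (hs : ∀ (c : K) x, p x → p (c • x))
    {b : R.H.obj (tp X n) ⟶ R.H.obj (tp X n)} (hb : b ∈ MS 𝒢 X n) : p b :=
  Submodule.span_induction (p := fun b _ => p b) h1 h0 (fun x y _ _ => ha x y)
    (fun c x _ => hs c x) hb

lemma MS_of {X : C} {n : ℕ} {x : R.H.obj (tp X n) ⟶ R.H.obj (tp X n)} (h : Mon 𝒢 X n x) :
    x ∈ MS 𝒢 X n := Submodule.subset_span h

lemma MS_comp (h2 : (2 : K) ≠ 0) {X : C} {n : ℕ} {x y : R.H.obj (tp X n) ⟶ R.H.obj (tp X n)}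
    (hx : x ∈ MS 𝒢 X n) (hy : y ∈ MS 𝒢 X n) : x ≫ y ∈ MS 𝒢 X n := by
  refine MS_ind (p := fun x => x ≫ y ∈ MS 𝒢 X n) (fun x hx => ?_) ?_ (fun x z hx hy => ?_)
    (fun c x hx => ?_) hx
  · refine MS_ind (p := fun y => x ≫ y ∈ MS 𝒢 X n) (fun y hy => ?_) ?_ (fun z t hz ht => ?_)
      (fun c z hz => ?_) hy
    · exact MS_of (Mon.comp h2 n x y hx hy)
    · rw [comp_zero]; exact Submodule.zero_mem _
    · rw [Preadditive.comp_add]; exact Submodule.add_mem _ hz ht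
    · rw [Linear.comp_smul]; exact Submodule.smul_mem _ _ hz
  · rw [zero_comp]; exact Submodule.zero_mem _
  · rw [Preadditive.add_comp]; exact Submodule.add_mem _ hx hy
  · rw [Linear.smul_comp]; exact Submodule.smul_mem _ _ hx

lemma MS_box {X : C} {n : ℕ} {a : R.H.obj (tp X n) ⟶ R.H.obj (tp X n)} (ha : a ∈ MS 𝒢 X n)
    {b : R.H.obj X ⟶ R.H.obj X} (hb : b ∈ Dg 𝒢 X) : bx R a b ∈ MS 𝒢 X (n + 1) := by
  refine MS_ind (p := fun a => bx R a b ∈ MS 𝒢 X (n + 1)) (fun a ha => MS_of (Mon.box _ _ _ ha hb))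
    ?_ (fun x y hx hy => ?_) (fun c x hx => ?_) ha
  · rw [bx_zero_left]; exact Submodule.zero_mem _
  · rw [bx_add_left]; exact Submodule.add_mem _ hx hy
  · rw [bx_smul_left]; exact Submodule.smul_mem _ _ hx

/-- An endomorphism of the realisation of the unit is a scalar. -/
lemma unit_scal (c : R.H.obj (𝟙_ C) ⟶ R.H.obj (𝟙_ C)) : ∃ k : K, c = k • 𝟙 _ := by
  have h1 := unit_hom (ε R.H ≫ c ≫ η R.H)
  refine ⟨(ε R.H ≫ c ≫ η R.H).hom (1 : K), ?_⟩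
  have h2 : c = η R.H ≫ (ε R.H ≫ c ≫ η R.H) ≫ ε R.H := by simp
  conv_lhs => rw [h2, h1]
  rw [Linear.smul_comp, Linear.comp_smul, Category.id_comp, Functor.Monoidal.η_ε]

lemma MS_gr (X : C) (n : ℕ) (k : ℤ) : 𝒢.gr (tp X n) k ∈ MS 𝒢 X n := by
  induction n generalizing k with
  | zero =>
    obtain ⟨c, hc⟩ := unit_scal (𝒢.gr (𝟙_ C) k)
    have h1 : 𝒢.gr (tp X 0) k = c • 𝟙 _ := hc
    rw [h1]
    exact Submodule.smul_mem _ _ (MS_of (Mon.one 0))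
  | succ n ih =>
    obtain ⟨s, -, hs⟩ := 𝒢.gr_sum (tp X n)
    have h1 : 𝒢.gr (tp X (n + 1)) k =
      ∑ i ∈ s, bx R (𝒢.gr (tp X n) i) (𝒢.gr X (k - i)) := gr_tp _ _ hs k
    rw [h1]
    exact Submodule.sum_mem _ (fun i _ => MS_box (ih i) (gr_mem 𝒢 X (k - i)))

lemma MS_D {X : C} {n : ℕ} {b : R.H.obj (tp X n) ⟶ R.H.obj (tp X n)} (hb : b ∈ Dg 𝒢 (tp X n)) :
    b ∈ MS 𝒢 X n :=
  D_ind (p := fun b => b ∈ MS 𝒢 X n) (fun i => MS_gr X n i) (Submodule.zero_mem _)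
    (fun _ _ hx hy => Submodule.add_mem _ hx hy) (fun _ _ hx => Submodule.smul_mem _ _ hx) hb

/-- The shape of the combinations on one factor. -/
lemma one_shape {X : C} {x : R.H.obj (tp X 1) ⟶ R.H.obj (tp X 1)}
    (hx : x ∈ MS 𝒢 X 1) : ∃ b ∈ Dg 𝒢 X, x = bx R (𝟙 (R.H.obj (tp X 0))) b := by
  refine MS_ind (p := fun x => ∃ b ∈ Dg 𝒢 X, x = bx R (𝟙 (R.H.obj (tp X 0))) b) (fun x hx => ?_)
    ?_ (fun x y hx hy => ?_) (fun c x hx => ?_) hx
  · cases hx with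
    | one => exact ⟨𝟙 _, one_mem 𝒢 X, (bx_one R _ _).symm⟩
    | box _ a b ha hb =>
      cases ha
      exact ⟨b, hb, rfl⟩
  · exact ⟨0, Submodule.zero_mem _, (bx_zero_right R _).symm⟩
  · obtain ⟨b, hb, rfl⟩ := hx
    obtain ⟨c, hc, rfl⟩ := hy
    exact ⟨b + c, Submodule.add_mem _ hb hc, (bx_add_right R _ _ _).symm⟩
  · obtain ⟨b, hb, rfl⟩ := hx
    exact ⟨c • b, Submodule.smul_mem _ _ hb, (bx_smul_right R _ _ _).symm⟩

/-- Naturality of the left unitor with respect to linear maps. -/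
lemma lam_nat {X : C} (b : R.H.obj X ⟶ R.H.obj X) :
    bx R (𝟙 (R.H.obj (𝟙_ C))) b ≫ R.H.map (λ_ X).hom = R.H.map (λ_ X).hom ≫ b := by
  have h1 : R.H.map (λ_ X).hom = δ R.H (𝟙_ C) X ≫ (η R.H ▷ R.H.obj X) ≫ (λ_ (R.H.obj X)).hom := by
    rw [Functor.LaxMonoidal.left_unitality]
    have h3 : (η R.H ▷ R.H.obj X) ≫ (ε R.H ▷ R.H.obj X) = 𝟙 _ := by
      rw [← comp_whiskerRight, Functor.Monoidal.η_ε, id_whiskerRight]
    rw [reassoc_of% h3, Functor.Monoidal.δ_μ_assoc]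
  rw [h1, bx]
  simp only [Category.assoc, Functor.Monoidal.μ_δ_assoc, id_tensorHom]
  rw [whisker_exchange_assoc, leftUnitor_naturality]

end

end Pool.Agent.V8H31.KS
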