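import Pool.Agent.V8H31.KS.Mon

/-!
# Partial traces of monomials
-/

set_option autoImplicit false
set_option linter.unusedSectionVars false
set_option linter.unusedSimpArgs false
set_option backward.isDefEq.respectTransparency false
set_option backward.defeqAttrib.useBackward true

open CategoryTheory Limits MonoidalCategory
open Pool.Agent.Y112.SR Pool.Agent.Y112.KD
open Pool.Agent.Y112.SC (bx bx_comp bx_one bx_map bx_par map_whiskerRight_eq bx_sw bx_add_left
  bx_add_right bx_smul_left bx_smul_right bx_zero_left bx_zero_right PT PT_add PT_smul PT_comp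
  PT_bx PT_sw PTn PTn_map up trace_PTn Sg Sg_Sg Sg_braid swap_sq)

namespace Pool.Agent.V8H31.KS

universe v u w

open Functor.LaxMonoidal Functor.OplaxMonoidal

section

variable {C : Type u} [Category.{v} C] [Preadditive C] [Linear ℚ C] [MonoidalCategory C]
  [MonoidalPreadditive C] [MonoidalLinear ℚ C] [SymmetricCategory C]
  [RightRigidCategory C] {K : Type w} [Field K] {R : SuperRealisation C K} {𝒢 : ZGr R}

lemma MS_adj {X : C} {n : ℕ} {e : End (tp X n)}
    (he : e ∈ Algebra.adjoin ℚ {s : End (tp X n) | IsSwap X n s}) : R.H.map e ∈ MS 𝒢 X n := by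
  have hK := R_charZero R
  induction he using Algebra.adjoin_induction with
  | mem s hs => exact MS_of (Mon.swap hs)
  | algebraMap q =>
    have h1 : (algebraMap ℚ (End (tp X n)) q : tp X n ⟶ tp X n) = q • 𝟙 _ := by
      rw [Algebra.algebraMap_eq_smul_one]
      rfl
    rw [h1, R_smul, CategoryTheory.Functor.map_id]
    exact Submodule.smul_mem _ _ (MS_of (Mon.one n))
  | add x y _ _ hx hy =>
    have h1 : R.H.map (x + y : End (tp X n)) = R.H.map x + R.H.map y := R.H.map_add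
    rw [h1]
    exact Submodule.add_mem _ hx hy
  | mul x y _ _ hx hy =>
    rw [End.mul_def, Functor.map_comp]
    exact MS_comp two_ne_zero hy hx

/-- An operator which commutes with the exchanges commutes with their algebra. -/
lemma comm_adj {X : C} {n : ℕ} {e : End (tp X n)}
    (he : e ∈ Algebra.adjoin ℚ {s : End (tp X n) | IsSwap X n s})
    (Y : R.H.obj (tp X n) ⟶ R.H.obj (tp X n))
    (hY : ∀ s : tp X n ⟶ tp X n, IsSwap X n s → R.H.map s ≫ Y = Y ≫ R.H.map s) :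
    R.H.map e ≫ Y = Y ≫ R.H.map e := by
  have hK := R_charZero R
  induction he using Algebra.adjoin_induction with
  | mem s hs => exact hY s hs
  | algebraMap q =>
    have h1 : (algebraMap ℚ (End (tp X n)) q : tp X n ⟶ tp X n) = q • 𝟙 _ := by
      rw [Algebra.algebraMap_eq_smul_one]
      rfl
    rw [h1, R_smul, CategoryTheory.Functor.map_id, Linear.smul_comp, Linear.comp_smul,
      Category.id_comp, Category.comp_id]
  | add x y _ _ hx hy =>
    have h1 : R.H.map (x + y : End (tp X n)) = R.H.map x + R.H.map y := R.H.map_add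
    rw [h1, Preadditive.add_comp, Preadditive.comp_add, hx, hy]
  | mul x y _ _ hx hy =>
    rw [End.mul_def, Functor.map_comp, Category.assoc, hx, ← Category.assoc, hy, Category.assoc]

/-- The partial trace as a linear map. -/
noncomputable def PTL (R : SuperRealisation C K) (X : C) (n : ℕ) :
    (R.H.obj (tp X (n + 1)) ⟶ R.H.obj (tp X (n + 1))) →ₗ[K]
      (R.H.obj (tp X n) ⟶ R.H.obj (tp X n)) where
  toFun x := PT R (Q := tp X n) (X := X) x
  map_add' x y := PT_add R (Q := tp X n) (X := X) x y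
  map_smul' c x := PT_smul R (Q := tp X n) (X := X) c x

lemma Mon_PT {X : C} {n : ℕ} {x : R.H.obj (tp X (n + 1)) ⟶ R.H.obj (tp X (n + 1))}
    (hx : Mon 𝒢 X (n + 1) x) : PTL R X n x ∈ MS 𝒢 X n := by
  have hK := R_charZero R
  have h2 : (2 : K) ≠ 0 := two_ne_zero
  have hbox : ∀ (a : R.H.obj (tp X n) ⟶ R.H.obj (tp X n)) (b : R.H.obj X ⟶ R.H.obj X),
      Mon 𝒢 X n a → PT R (bx R a b) ∈ MS 𝒢 X n := by
    intro a b ha
    rw [PT_bx R h2]
    exact Submodule.smul_mem _ _ (MS_of ha)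
  change PT R (Q := tp X n) (X := X) x ∈ MS 𝒢 X n
  cases hx with
  | one =>
    have h := hbox (𝟙 _) (𝟙 _) (Mon.one n)
    rwa [bx_one] at h
  | box _ a b ha hb' => exact hbox a b ha
  | swp m a a' b ha ha' hb' =>
    have e1 : bx R a b ≫ Sg R X m ≫ bx R a' (𝟙 _) =
        bx R a (𝟙 _) ≫ Sg R X m ≫ bx R (bx R (𝟙 _) b ≫ a') (𝟙 _) := by
      have e2 : bx R a b = bx R a (𝟙 _) ≫ bx R (𝟙 _) b := by
        rw [bx_comp, Category.comp_id, Category.id_comp]
      have e3 : bx R (𝟙 _) b ≫ Sg R X m = Sg R X m ≫ bx R (bx R (𝟙 _) b) (𝟙 _) := by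
        rw [← Sg_nat h2 _ (D_par (one_mem 𝒢 X)) (D_par hb'), bx_one]
      have e4 : bx R (bx R (𝟙 _) b ≫ a') (𝟙 (R.H.obj X)) =
          bx R (bx R (𝟙 _) b) (𝟙 _) ≫ bx R a' (𝟙 _) := by
        rw [bx_comp, Category.comp_id]
      rw [e2, e4, Category.assoc, reassoc_of% e3]
    have e5 : PT R (bx R a b ≫ Sg R X m ≫ bx R a' (𝟙 _)) = a ≫ bx R (𝟙 _) b ≫ a' := by
      rw [e1, PT_comp]
      have e6 : PT R (Sg R X m) = 𝟙 _ := PT_sw R _ _
      rw [e6, Category.id_comp]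
    rw [e5]
    exact MS_of (Mon.comp h2 _ _ _ ha (Mon.comp h2 _ _ _ (Mon.box _ _ _ (Mon.one _) hb') ha'))

/-- The partial trace of a combination of monomials. -/
lemma MS_PT {X : C} {n : ℕ} {x : R.H.obj (tp X (n + 1)) ⟶ R.H.obj (tp X (n + 1))}
    (hx : x ∈ MS 𝒢 X (n + 1)) : PTL R X n x ∈ MS 𝒢 X n := by
  have h1 : MS 𝒢 X (n + 1) ≤ (MS 𝒢 X n).comap (PTL R X n) := by
    refine Submodule.span_le.2 ?_
    intro y hy
    exact Mon_PT hy
  exact h1 hx

lemma MS_PTn {X : C} (n : ℕ) {x : R.H.obj (tp X (n + 1)) ⟶ R.H.obj (tp X (n + 1))}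
    (hx : x ∈ MS 𝒢 X (n + 1)) : PTn R X n x ∈ MS 𝒢 X 1 := by
  induction n with
  | zero => exact hx
  | succ n ih => exact ih (MS_PT hx)

lemma alg_PTn {X : C} (n : ℕ) {x : R.H.obj (tp X (n + 1)) ⟶ R.H.obj (tp X (n + 1))}
    (hx : x ∈ alg R (tp X (n + 1))) : PTn R X n x ∈ alg R (tp X 1) := by
  induction n with
  | zero => exact hx
  | succ n ih =>
    refine ih ?_
    exact ptK_mem (M := tp X (n + 1)) (N := X) hx

/-- Transport of algebraic operators. -/
lemma alg_sandwich {X Y : C} (f : Y ⟶ X) (g : X ⟶ Y) {x : R.H.obj X ⟶ R.H.obj X}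
    (hx : x ∈ alg R X) : R.H.map f ≫ x ≫ R.H.map g ∈ alg R Y := by
  refine Submodule.span_induction (p := fun x _ => R.H.map f ≫ x ≫ R.H.map g ∈ alg R Y)
    ?_ ?_ ?_ ?_ hx
  · rintro _ ⟨h, rfl⟩
    rw [← R.H.map_comp, ← R.H.map_comp]
    exact map_mem _
  · rw [zero_comp, comp_zero]
    exact Submodule.zero_mem _
  · intro x y _ _ hx hy
    rw [Preadditive.add_comp, Preadditive.comp_add]
    exact Submodule.add_mem _ hx hy
  · intro c x _ hx
    rw [Linear.smul_comp, Linear.comp_smul]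
    exact Submodule.smul_mem _ _ hx

/-- The contraction of all factors but the first one. -/
noncomputable def TT (X : C) (n : ℕ) (x : R.H.obj (tp X (n + 1)) ⟶ R.H.obj (tp X (n + 1))) :
    R.H.obj X ⟶ R.H.obj X :=
  R.H.map (λ_ X).inv ≫ PTn R X n x ≫ R.H.map (λ_ X).hom

lemma TT_alg {X : C} {n : ℕ} {x : R.H.obj (tp X (n + 1)) ⟶ R.H.obj (tp X (n + 1))}
    (hx : x ∈ alg R (tp X (n + 1))) : TT X n x ∈ alg R X :=
  alg_sandwich (λ_ X).inv (λ_ X).hom (alg_PTn n hx)

lemma TT_D {X : C} {n : ℕ} {x : R.H.obj (tp X (n + 1)) ⟶ R.H.obj (tp X (n + 1))}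
    (hx : x ∈ MS 𝒢 X (n + 1)) : TT X n x ∈ Dg 𝒢 X := by
  obtain ⟨b, hb, h⟩ := one_shape (MS_PTn n hx)
  have h1 : TT X n x = b := by
    have h2 : bx R (𝟙 (R.H.obj (tp X 0))) b ≫ R.H.map (λ_ X).hom = R.H.map (λ_ X).hom ≫ b :=
      lam_nat b
    rw [TT, h, h2, ← Category.assoc, ← R.H.map_comp, Iso.inv_hom_id, R.H.map_id, Category.id_comp]
  rw [h1]
  exact hb

lemma trace_swap {X Y : C} (a : R.H.obj X ⟶ R.H.obj Y) (b : R.H.obj Y ⟶ R.H.obj X) :
    LinearMap.trace K (R.H.obj X) (a ≫ b).hom = LinearMap.trace K (R.H.obj Y) (b ≫ a).hom := by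
  have h1 := R.finite X
  have h2 := R.finite Y
  rw [ModuleCat.hom_comp, ModuleCat.hom_comp]
  exact LinearMap.trace_comp_comm' a.hom b.hom

/-- The trace of the contraction. -/
lemma trace_TT {X : C} (n : ℕ) (θ : R.H.obj X ⟶ R.H.obj X)
    (x : R.H.obj (tp X (n + 1)) ⟶ R.H.obj (tp X (n + 1))) :
    LinearMap.trace K (R.H.obj X) (θ ≫ TT X n x ≫ R.par X).hom =
      LinearMap.trace K (R.H.obj (tp X (n + 1)))
        (up R X (bx R (𝟙 (R.H.obj (tp X 0))) θ) n ≫ x ≫ R.par (tp X (n + 1))).hom := by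
  rw [← trace_PTn]
  have h1 : bx R (𝟙 (R.H.obj (tp X 0))) θ =
      R.H.map (λ_ X).hom ≫ θ ≫ R.H.map (λ_ X).inv := by
    have h2 : bx R (𝟙 (R.H.obj (tp X 0))) θ ≫ R.H.map (λ_ X).hom = R.H.map (λ_ X).hom ≫ θ :=
      lam_nat θ
    rw [← Category.assoc, ← h2, Category.assoc, ← R.H.map_comp, Iso.hom_inv_id, R.H.map_id,
      Category.comp_id]
  have h3 : TT X n x ≫ R.par X = R.H.map (λ_ X).inv ≫ (PTn R X n x ≫ R.par (tp X 1)) ≫
      R.H.map (λ_ X).hom := by
    have h4 : R.H.map (λ_ X).hom ≫ R.par X = R.par (tp X 1) ≫ R.H.map (λ_ X).hom :=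
      R.par_natural (λ_ X).hom
    rw [TT, Category.assoc, Category.assoc, h4]
    simp only [Category.assoc]
  rw [h1, h3]
  have h5 : θ ≫ R.H.map (λ_ X).inv ≫ (PTn R X n x ≫ R.par (tp X 1)) ≫ R.H.map (λ_ X).hom =
      (θ ≫ R.H.map (λ_ X).inv ≫ (PTn R X n x ≫ R.par (tp X 1))) ≫ R.H.map (λ_ X).hom := by
    simp only [Category.assoc]
  rw [h5, trace_swap]
  simp only [Category.assoc]

end

end Pool.Agent.V8H31.KS
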