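import Pool.Agent.V8H31.KS.Sep

/-!
# Traces of derivations against algebraic combinations of monomials, and the degree operator
-/

set_option autoImplicit false
set_option linter.unusedSectionVars false
set_option linter.unusedSimpArgs false
set_option backward.isDefEq.respectTransparency false
set_option backward.defeqAttrib.useBackward true

open CategoryTheory Limits MonoidalCategory
open Pool.Agent.Y112.SR Pool.Agent.Y112.KD
open Pool.Agent.Y112.SC (bx bx_comp bx_one bx_map bx_par map_whiskerRight_eq bx_sw bx_add_left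
  bx_add_right bx_smul_left bx_smul_right bx_zero_left bx_zero_right bx_sum_left exists_rk
  up Sg Sg_Sg swap_sq trF)

namespace Pool.Agent.V8H31.KS

universe v u w

open Functor.LaxMonoidal Functor.OplaxMonoidal

section

variable {C : Type u} [Category.{v} C] [Preadditive C] [Linear ℚ C] [MonoidalCategory C]
  [MonoidalPreadditive C] [MonoidalLinear ℚ C] [SymmetricCategory C]
  [RightRigidCategory C] {K : Type w} [Field K] {R : SuperRealisation C K} {𝒢 : ZGr R}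

/-- The operators which are `θ` on one factor, up to exchanges. -/
inductive Reach (R : SuperRealisation C K) (X : C) (θ : R.H.obj X ⟶ R.H.obj X) :
    ∀ n : ℕ, (R.H.obj (tp X n) ⟶ R.H.obj (tp X n)) → Prop
  | first (n : ℕ) : Reach R X θ (n + 1) (up R X (bx R (𝟙 (R.H.obj (tp X 0))) θ) n)
  | conj (n : ℕ) (a : R.H.obj (tp X n) ⟶ R.H.obj (tp X n)) (s : tp X n ⟶ tp X n) :
      IsSwap X n s → Reach R X θ n a → Reach R X θ n (R.H.map s ≫ a ≫ R.H.map s)

lemma Reach.lift {X : C} {θ : R.H.obj X ⟶ R.H.obj X} {n : ℕ}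
    {a : R.H.obj (tp X n) ⟶ R.H.obj (tp X n)} (h : Reach R X θ n a) :
    Reach R X θ (n + 1) (bx R a (𝟙 _)) := by
  induction h with
  | first n => exact Reach.first (n + 1)
  | conj n a s hs _ ih =>
    have h1 := Reach.conj _ _ _ (IsSwap.lift n s hs) ih
    rwa [map_whiskerRight_eq, bx_comp, bx_comp, Category.comp_id, Category.comp_id] at h1

lemma Reach.last {X : C} {θ : R.H.obj X ⟶ R.H.obj X} (hθ : Ev θ) (n : ℕ) :
    Reach R X θ (n + 1) (bx R (𝟙 _) θ) := by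
  have hK := R_charZero R
  have h2 : (2 : K) ≠ 0 := two_ne_zero
  have h1' : (𝟙 (R.H.obj X)) ≫ R.par X = R.par X ≫ 𝟙 _ := by
    rw [Category.comp_id, Category.id_comp]
  induction n with
  | zero => exact Reach.first 0
  | succ n ih =>
    have h1 := Reach.conj _ _ _ (IsSwap.last n) ih.lift
    have h2 : R.H.map (sw (tp X n) X) ≫ bx R (bx R (𝟙 _) θ) (𝟙 _) ≫
        R.H.map (sw (tp X n) X) = bx R (𝟙 _) θ := by
      have h3 := Sg_nat (R := R) (X := X) (n := n) h2 (𝟙 _) hθ h1'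
      have h4 := Sg_Sg R X n
      rw [Sg] at h3 h4
      rw [h3, ← Category.assoc, h4, Category.id_comp, bx_one]
    rwa [h2] at h1

lemma Der_val {X : C} {θ : R.H.obj X ⟶ R.H.obj X} (hθ : Ev θ) (n : ℕ)
    (φ : (R.H.obj (tp X n) ⟶ R.H.obj (tp X n)) →+ K)
    (h : ∀ a, Reach R X θ n a → φ a = 0) : φ (Der θ n) = 0 := by
  induction n with
  | zero =>
    have : Der θ 0 = 0 := rfl
    rw [this, map_zero]
  | succ n ih =>
    let ψ : (R.H.obj (tp X n) ⟶ R.H.obj (tp X n)) →+ K :=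
      { toFun := fun a => φ (bx R a (𝟙 _))
        map_zero' := by rw [bx_zero_left, map_zero]
        map_add' := fun a b => by rw [bx_add_left, map_add] }
    have h1 := ih ψ (fun a ha => h _ ha.lift)
    have h2 : φ (Der θ (n + 1)) = ψ (Der θ n) + φ (bx R (𝟙 _) θ) := map_add φ _ _
    rw [h2, h1, h _ (Reach.last hθ n), add_zero]

lemma places {X : C} {θ : R.H.obj X ⟶ R.H.obj X}
    (h0 : ∀ T ∈ Dg 𝒢 X, T ∈ alg R X → trc R X (θ ≫ T ≫ R.par X) = 0)
    {n : ℕ} {a : R.H.obj (tp X n) ⟶ R.H.obj (tp X n)} (ha : Reach R X θ n a) :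
    ∀ x ∈ MS 𝒢 X n, x ∈ alg R (tp X n) → trc R (tp X n) (a ≫ x ≫ R.par (tp X n)) = 0 := by
  have hK := R_charZero R
  induction ha with
  | first n =>
    intro x hx hxa
    have h1 := trace_TT n θ x
    have h2 := h0 _ (TT_D hx) (TT_alg hxa)
    exact h1.symm.trans h2
  | conj n a s hs _ ih =>
    intro x hx hxa
    have hs2 : R.H.map s ≫ R.H.map s = 𝟙 _ := by
      rw [← Functor.map_comp, swap_sq hs, CategoryTheory.Functor.map_id]
    have hsm : R.H.map s ∈ MS 𝒢 X n := MS_of (Mon.swap hs)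
    have h1 := ih (R.H.map s ≫ x ≫ R.H.map s)
      (MS_comp two_ne_zero hsm (MS_comp two_ne_zero hx hsm))
      (comp_mem (map_mem s) (comp_mem hxa (map_mem s)))
    have hpar : R.H.map s ≫ R.par (tp X n) = R.par (tp X n) ≫ R.H.map s := R.par_natural s
    have f1 : a ≫ (R.H.map s ≫ x ≫ R.H.map s) ≫ R.par (tp X n) =
        (a ≫ R.H.map s ≫ x ≫ R.par (tp X n)) ≫ R.H.map s := by
      simp only [Category.assoc]
      rw [hpar]
    rw [f1, trc_swap] at h1
    rw [← h1]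
    simp only [Category.assoc]

lemma der_trace {X : C} {θ : R.H.obj X ⟶ R.H.obj X} (hθ : Ev θ)
    (h0 : ∀ T ∈ Dg 𝒢 X, T ∈ alg R X → trc R X (θ ≫ T ≫ R.par X) = 0)
    {n : ℕ} {x : R.H.obj (tp X n) ⟶ R.H.obj (tp X n)} (hx : x ∈ MS 𝒢 X n)
    (hxa : x ∈ alg R (tp X n)) : trc R (tp X n) (Der θ n ≫ x ≫ R.par (tp X n)) = 0 :=
  Der_val hθ n (trF R (x ≫ R.par (tp X n))) (fun _ ha => places h0 ha x hx hxa)

/-- Degree operators. -/
def IsDeg (𝒢 : ZGr R) {X : C} (Y : R.H.obj X ⟶ R.H.obj X) : Prop :=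
  ∀ k : ℤ, 𝒢.gr X k ≫ Y = (k : K) • 𝒢.gr X k

lemma IsDeg.mem {X : C} {Y : R.H.obj X ⟶ R.H.obj X} (h : IsDeg 𝒢 Y) : Y ∈ Dg 𝒢 X := by
  obtain ⟨s, -, hd⟩ := 𝒢.gr_sum X
  have h1 : Y = ∑ i ∈ s, (i : K) • 𝒢.gr X i := by
    have h2 : Y = 𝟙 _ ≫ Y := by rw [Category.id_comp]
    rw [h2, ← hd, Preadditive.sum_comp]
    exact Finset.sum_congr rfl (fun i _ => h i)
  rw [h1]
  exact Submodule.sum_mem _ (fun i _ => Submodule.smul_mem _ _ (gr_mem 𝒢 X i))

lemma exists_isDeg (X : C) : ∃ Y : R.H.obj X ⟶ R.H.obj X, IsDeg 𝒢 Y := by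
  obtain ⟨s, hd, -⟩ := 𝒢.gr_sum X
  refine ⟨∑ i ∈ s, (i : K) • 𝒢.gr X i, fun k => ?_⟩
  by_cases hk : k ∈ s
  · rw [Preadditive.comp_sum, Finset.sum_eq_single k]
    · rw [Linear.comp_smul, 𝒢.gr_idem]
    · intro b _ hb
      rw [Linear.comp_smul, 𝒢.gr_orth X k b (Ne.symm hb), smul_zero]
    · intro h
      exact absurd hk h
  · rw [hd k hk, zero_comp, smul_zero]

lemma isDeg_der {X : C} {D : R.H.obj X ⟶ R.H.obj X} (hD : IsDeg 𝒢 D) :
    ∃ c : K, ∀ n : ℕ, IsDeg 𝒢 (Der D n + c • 𝟙 (R.H.obj (tp X n))) := by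
  obtain ⟨Y, hY⟩ := exists_isDeg (𝒢 := 𝒢) (𝟙_ C)
  obtain ⟨c, hc⟩ := unit_scal Y
  refine ⟨c, fun n => ?_⟩
  induction n with
  | zero =>
    have h1 : Der D 0 + c • 𝟙 (R.H.obj (tp X 0)) = Y := by
      rw [hc]
      exact zero_add _
    rw [h1]
    exact hY
  | succ n ih =>
    intro k
    obtain ⟨s, -, hs⟩ := 𝒢.gr_sum (tp X n)
    have h1 : 𝒢.gr (tp X (n + 1)) k =
      ∑ i ∈ s, bx R (𝒢.gr (tp X n) i) (𝒢.gr X (k - i)) := gr_tp _ _ hs k
    have h2 : Der D (n + 1) + c • 𝟙 (R.H.obj (tp X (n + 1))) =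
        bx R (Der D n + c • 𝟙 _) (𝟙 _) + bx R (𝟙 _) D := by
      have h3 : 𝟙 (R.H.obj (tp X (n + 1))) = bx R (𝟙 (R.H.obj (tp X n))) (𝟙 (R.H.obj X)) :=
        (bx_one R _ _).symm
      rw [Der_succ, bx_add_left, bx_smul_left, h3]
      abel
    rw [h2, h1, Preadditive.sum_comp, Finset.smul_sum]
    refine Finset.sum_congr rfl fun i _ => ?_
    rw [Preadditive.comp_add, bx_comp, bx_comp, ih i, hD (k - i), Category.comp_id,
      Category.comp_id, bx_smul_left, bx_smul_right, ← add_smul]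
    congr 1
    push_cast
    ring

end

end Pool.Agent.V8H31.KS
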