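import Pool.Agent.V8H31.KS.Spec

/-!
# Operators of rank one and the ideal argument
-/

set_option autoImplicit false
set_option linter.unusedSectionVars false
set_option linter.unusedSimpArgs false
set_option backward.isDefEq.respectTransparency false
set_option backward.defeqAttrib.useBackward true

open CategoryTheory Limits MonoidalCategory
open Pool.Agent.Y112.SR Pool.Agent.Y112.KD
open Pool.Agent.Y112.SC (bx bx_comp bx_one bx_map bx_par map_whiskerRight_eq bx_sw bx_add_left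
  bx_add_right bx_smul_left bx_smul_right bx_zero_left bx_zero_right bx_sum_left exists_rk
  pe po pe_add_po pe_pe po_po pe_comm po_comm)

namespace Pool.Agent.V8H31.KS

universe v u w

open Functor.LaxMonoidal Functor.OplaxMonoidal

section

variable {C : Type u} [Category.{v} C] [Preadditive C] [Linear ℚ C] [MonoidalCategory C]
  [MonoidalPreadditive C] [MonoidalLinear ℚ C] [SymmetricCategory C]
  [RightRigidCategory C] {K : Type w} [Field K] {R : SuperRealisation C K}

/-- The operator `x ↦ f x • v`. -/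
noncomputable def rk {X : C} (f : R.H.obj X →ₗ[K] K) (v : R.H.obj X) : R.H.obj X ⟶ R.H.obj X :=
  ModuleCat.ofHom (f.smulRight v)

lemma rk_apply {X : C} (f : R.H.obj X →ₗ[K] K) (v x : R.H.obj X) : (rk f v).hom x = f x • v := rfl

lemma rk_right {X : C} (f : R.H.obj X →ₗ[K] K) (v : R.H.obj X) (θ : R.H.obj X ⟶ R.H.obj X) :
    rk f v ≫ θ = rk f (θ.hom v) := by
  ext x
  simp [rk]

lemma rk_left {X : C} (f : R.H.obj X →ₗ[K] K) (v : R.H.obj X) (θ : R.H.obj X ⟶ R.H.obj X) :
    θ ≫ rk f v = rk (f ∘ₗ θ.hom) v := by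
  ext x
  simp [rk]

lemma rk_smul {X : C} (c : K) (f : R.H.obj X →ₗ[K] K) (v : R.H.obj X) :
    rk f (c • v) = c • rk f v := by
  ext x
  simp [rk, smul_smul, mul_comm]

lemma rk_smul_left {X : C} (c : K) (f : R.H.obj X →ₗ[K] K) (v : R.H.obj X) :
    rk (c • f) v = c • rk f v := by
  ext x
  simp [rk, smul_smul]

lemma rk_zero {X : C} (f : R.H.obj X →ₗ[K] K) : rk f (0 : R.H.obj X) = 0 := by
  ext x
  simp [rk]

lemma rk_zero_left {X : C} (v : R.H.obj X) : rk (0 : R.H.obj X →ₗ[K] K) v = 0 := by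
  ext x
  simp [rk]

lemma rk_add {X : C} (f : R.H.obj X →ₗ[K] K) (v v' : R.H.obj X) :
    rk f (v + v') = rk f v + rk f v' := by
  ext x
  simp [rk]

lemma rk_rk {X : C} (f g : R.H.obj X →ₗ[K] K) (v u : R.H.obj X) :
    rk f v ≫ rk g u = g v • rk f u := by
  rw [rk_right, rk_apply, rk_smul]

lemma trc_rk {X : C} (f : R.H.obj X →ₗ[K] K) (v : R.H.obj X) : trc R X (rk f v) = f v := by
  have h0 := R.finite X
  exact LinearMap.trace_smulRight f v

/-- Vectors and functionals of a given parity. -/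
def VPar {X : C} (s : K) (v : R.H.obj X) : Prop := (R.par X).hom v = s • v

def FPar {X : C} (s : K) (f : R.H.obj X →ₗ[K] K) : Prop := f ∘ₗ (R.par X).hom = s • f

lemma rk_ev {X : C} {s : K} {f : R.H.obj X →ₗ[K] K} {v : R.H.obj X} (hf : FPar s f)
    (hv : VPar s v) : Ev (rk f v) := by
  unfold Ev
  rw [rk_right, rk_left, hf, hv, rk_smul, rk_smul_left]

lemma rk_od {X : C} {s : K} {f : R.H.obj X →ₗ[K] K} {v : R.H.obj X} (hf : FPar s f)
    (hv : VPar (-s) v) : Od (rk f v) := by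
  unfold Od
  rw [rk_right, rk_left, hf, hv, rk_smul, rk_smul_left, neg_smul]

lemma par_zero {X : C} (h2 : (2 : K) ≠ 0) {s : K} (hs : s ≠ 0) {f : R.H.obj X →ₗ[K] K}
    {v : R.H.obj X} (hf : FPar s f) (hv : VPar (-s) v) : f v = 0 := by
  have h1 := LinearMap.congr_fun hf v
  rw [LinearMap.comp_apply, hv, LinearMap.smul_apply, map_smul, smul_eq_mul, smul_eq_mul] at h1
  have h3 : (2 * s) * f v = 0 := by linear_combination -h1
  rcases mul_eq_zero.1 h3 with h4 | h4
  · rcases mul_eq_zero.1 h4 with h5 | h5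
    · exact absurd h5 h2
    · exact absurd h5 hs
  · exact h4

/-- An idempotent operator which commutes with all derivations. -/
structure Good {X : C} {n : ℕ} (E : R.H.obj (tp X n) ⟶ R.H.obj (tp X n)) : Prop where
  idem : E ≫ E = E
  der : ∀ φ : R.H.obj X ⟶ R.H.obj X, Ev φ → E ≫ Der φ n = Der φ n ≫ E
  od : ∀ φ : R.H.obj X ⟶ R.H.obj X, Od φ → E ≫ OD φ n = OD φ n ≫ E
  ep : ∀ φ : R.H.obj X ⟶ R.H.obj X, Ev φ → ∀ k, E ≫ EP φ n k = EP φ n k ≫ E

lemma good_adj {X : C} {n : ℕ} {e : End (tp X n)}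
    (he : e ∈ Algebra.adjoin ℚ {s : End (tp X n) | IsSwap X n s}) (hee : e * e = e) :
    Good (R := R) (R.H.map e) := by
  have hK := R_charZero R
  have h2 : (2 : K) ≠ 0 := two_ne_zero
  refine ⟨?_, fun φ hφ => ?_, fun φ hφ => ?_, fun φ hφ k => ?_⟩
  · rw [← R.H.map_comp, ← End.mul_def, hee]
  · exact comm_adj he _ (fun s hs => Der_swap h2 hφ hs)
  · exact comm_adj he _ (fun s hs => OD_swap h2 hφ hs)
  · exact comm_adj he _ (fun s hs => EP_swap h2 hφ hs k)

variable {X : C} {n : ℕ} {E : R.H.obj (tp X n) ⟶ R.H.obj (tp X n)}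

lemma kill (hE : Good E) {z ψ : R.H.obj X ⟶ R.H.obj X} (hz : Ev z) (hψ : Od ψ)
    (hzE : Der z n ≫ E = 0) {c : K} (hc : c ≠ 0) (h : z ≫ ψ - ψ ≫ z = c • ψ) :
    OD ψ n ≫ E = 0 := by
  have h1 := Der_OD hz ψ n
  rw [h, OD_smul] at h1
  have h2 := congrArg (fun y => y ≫ E) h1
  simp only [Preadditive.sub_comp, Category.assoc, Linear.smul_comp] at h2
  rw [← hE.od ψ hψ, ← Category.assoc, hzE, zero_comp, comp_zero, sub_zero] at h2
  rw [← hE.od ψ hψ]
  exact (smul_eq_zero.1 h2.symm).resolve_left hc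

/-- First step of the ideal argument. -/
lemma step4 (hE : Good E) {s : K} (hs : s ≠ 0) {v u : R.H.obj X} {f h : R.H.obj X →ₗ[K] K}
    (hv : VPar s v) (hf : FPar s f) (hfv : f v = 1) (hu : VPar (-s) u) (hh : FPar (-s) h)
    (hhu : h u = 1) {z : R.H.obj X ⟶ R.H.obj X} (hz : Ev z) (hzE : Der z n ≫ E = 0)
    (hfz : f ∘ₗ z.hom = f) (hzv : z.hom v = v) (hzu : z.hom u = 0) (hhz : h ∘ₗ z.hom = 0) :
    Der (rk f v) n ≫ E = 0 ∧ Der (rk h u) n ≫ E = 0 := by
  have hK := R_charZero R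
  have hv' : VPar (-(-s)) v := by rw [neg_neg]; exact hv
  have o1 : Od (rk f u) := rk_od hf hu
  have o2 : Od (rk h v) := rk_od hh hv'
  have k1 : OD (rk f u) n ≫ E = 0 := by
    refine kill hE hz o1 hzE (one_ne_zero (α := K)) ?_
    rw [rk_left, rk_right, hfz, hzu, rk_zero, sub_zero, one_smul]
  have k2 : OD (rk h v) n ≫ E = 0 := by
    refine kill hE hz o2 hzE (neg_ne_zero.2 (one_ne_zero (α := K))) ?_
    rw [rk_left, rk_right, hhz, hzv, rk_zero_left, zero_sub, neg_smul, one_smul]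
  have h1 := OD_OD o1 o2 n
  rw [rk_rk, rk_rk, hhu, hfv, one_smul, one_smul] at h1
  have h3 : Der (rk f v + rk h u) n ≫ E = 0 := by
    rw [← h1, Preadditive.add_comp, Category.assoc, Category.assoc, k2, k1, comp_zero, comp_zero,
      add_zero]
  rw [Der_add, Preadditive.add_comp] at h3
  have i1 : rk f v ≫ rk f v = rk f v := by rw [rk_rk, hfv, one_smul]
  have i2 : rk h u ≫ rk h u = rk h u := by rw [rk_rk, hhu, one_smul]
  obtain ⟨t1, ht1, ht1'⟩ := pos1 i1 n hE.idem (hE.ep _ (rk_ev hf hv))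
  obtain ⟨t2, ht2, ht2'⟩ := pos1 i2 n hE.idem (hE.ep _ (rk_ev hh hu))
  have h4 := congrArg (trc R (tp X n)) h3
  rw [map_add, ht1, ht2, map_zero] at h4
  have h5 : t1 + t2 = 0 := by exact_mod_cast h4
  exact ⟨ht1' (by omega), ht2' (by omega)⟩

/-- Second step of the ideal argument. -/
lemma step5 (hE : Good E) {s : K} (hs : s ≠ 0) {v : R.H.obj X} {f : R.H.obj X →ₗ[K] K}
    (hv : VPar s v) (hf : FPar s f) (hfv : f v = 1) (hp : Der (rk f v) n ≫ E = 0)
    {y : R.H.obj X} {k : R.H.obj X →ₗ[K] K} (hy : VPar (-s) y) (hk : FPar (-s) k) :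
    Der (rk k y) n ≫ E = 0 := by
  have hK := R_charZero R
  have hv' : VPar (-(-s)) v := by rw [neg_neg]; exact hv
  have o1 : Od (rk f y) := rk_od hf hy
  have o2 : Od (rk k v) := rk_od hk hv'
  have hfy : f y = 0 := par_zero two_ne_zero hs hf hy
  have k1 : OD (rk f y) n ≫ E = 0 := by
    refine kill hE (rk_ev hf hv) o1 hp (one_ne_zero (α := K)) ?_
    rw [rk_rk, rk_rk, hfv, hfy, zero_smul, sub_zero]
  have h1 := OD_OD o1 o2 n
  rw [rk_rk, rk_rk, hfv, one_smul] at h1
  have h3 : Der (k y • rk f v + rk k y) n ≫ E = 0 := by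
    rw [← h1, Preadditive.add_comp, Category.assoc, Category.assoc, k1, comp_zero, add_zero,
      ← hE.od _ o2, ← Category.assoc, k1, zero_comp]
  rwa [Der_add, Preadditive.add_comp, Der_smul, Linear.smul_comp, hp, smul_zero, zero_add] at h3

lemma sum_rk (X : C) : ∃ (ι : Type) (_ : Fintype ι) (b : ι → R.H.obj X)
    (c : ι → (R.H.obj X →ₗ[K] K)), Fintype.card ι = Module.finrank K (R.H.obj X) ∧
      ∑ i, rk (c i) (b i) = 𝟙 (R.H.obj X) := by
  have h0 := R.finite X
  let b := Module.finBasis K (R.H.obj X)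
  refine ⟨Fin (Module.finrank K (R.H.obj X)), inferInstance, b, b.coord, Fintype.card_fin _, ?_⟩
  ext x
  have h1 : (∑ i, rk (b.coord i) (b i) : R.H.obj X ⟶ R.H.obj X).hom x =
      ∑ i, b.coord i x • b i := by
    rw [ModuleCat.hom_sum, LinearMap.sum_apply]
    rfl
  rw [h1]
  simp [Module.Basis.sum_repr]

lemma Der_sum {ι : Type} (s : Finset ι) (a : ι → (R.H.obj X ⟶ R.H.obj X)) :
    Der (∑ i ∈ s, a i) n = ∑ i ∈ s, Der (a i) n := by
  classical
  induction s using Finset.induction_on with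
  | empty => rw [Finset.sum_empty, Finset.sum_empty, Der_zero]
  | insert i s hi ih => rw [Finset.sum_insert hi, Finset.sum_insert hi, Der_add, ih]

/-- Last step of the ideal argument. -/
lemma step6 (hn : 1 ≤ n) (h1 : ∀ s : K, s = 1 ∨ s = -1 → ∀ (y : R.H.obj X)
    (k : R.H.obj X →ₗ[K] K), VPar s y → FPar s k → Der (rk k y) n ≫ E = 0) : E = 0 := by
  have hK := R_charZero R
  have h2 : (2 : K) ≠ 0 := two_ne_zero
  obtain ⟨ι, hι, b, c, -, hbc⟩ := sum_rk (R := R) X
  have key : ∀ (s : K) (P : R.H.obj X ⟶ R.H.obj X), s = 1 ∨ s = -1 → P ≫ P = P →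
      P ≫ R.par X = s • P → R.par X ≫ P = s • P → Der P n ≫ E = 0 := by
    intro s P hs hPP hP1 hP2
    have e1 : P = ∑ i, rk (c i ∘ₗ P.hom) (P.hom (b i)) := by
      have e2 : P = P ≫ (∑ i, rk (c i) (b i)) ≫ P := by rw [hbc, Category.id_comp, hPP]
      conv_lhs => rw [e2]
      rw [Preadditive.sum_comp, Preadditive.comp_sum]
      refine Finset.sum_congr rfl fun i _ => ?_
      rw [rk_right, rk_left]
    rw [e1, Der_sum, Preadditive.sum_comp]
    refine Finset.sum_eq_zero fun i _ => h1 s hs _ _ ?_ ?_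
    · have e3 := LinearMap.congr_fun (congrArg ModuleCat.Hom.hom hP1) (b i)
      exact e3
    · have e3 := congrArg ModuleCat.Hom.hom hP2
      unfold FPar
      have e4 : (c i ∘ₗ P.hom) ∘ₗ (R.par X).hom = c i ∘ₗ (R.par X ≫ P).hom := rfl
      rw [e4, e3, ModuleCat.hom_smul, LinearMap.comp_smul]
  have hpe1 : pe R X ≫ R.par X = (1 : K) • pe R X := by
    rw [pe, Linear.smul_comp, Preadditive.add_comp, Category.id_comp, R.par_sq, one_smul,
      add_comm]
  have hpo1 : po R X ≫ R.par X = (-1 : K) • po R X := by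
    rw [po, Linear.smul_comp, Preadditive.sub_comp, Category.id_comp, R.par_sq, neg_one_smul,
      ← smul_neg, neg_sub]
  have g1 := key 1 (pe R X) (Or.inl rfl) (pe_pe R h2 X) hpe1 (by rw [← pe_comm]; exact hpe1)
  have g2 := key (-1) (po R X) (Or.inr rfl) (po_po R h2 X) hpo1 (by rw [← po_comm]; exact hpo1)
  have h3 : Der (𝟙 (R.H.obj X)) n ≫ E = 0 := by
    rw [← pe_add_po R h2, Der_add, Preadditive.add_comp, g1, g2, add_zero]
  rw [Der_one, Linear.smul_comp, Category.id_comp] at h3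
  exact (smul_eq_zero.1 h3).resolve_left (by
    have : n ≠ 0 := by omega
    exact_mod_cast this)

end

end Pool.Agent.V8H31.KS
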