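import Pool.Agent.V8H31.KS.Rank

/-!
# Separation of the weights and the number operators
-/

set_option autoImplicit false
set_option linter.unusedSectionVars false
set_option linter.unusedSimpArgs false
set_option backward.isDefEq.respectTransparency false
set_option backward.defeqAttrib.useBackward true

open CategoryTheory Limits MonoidalCategory
open Pool.Agent.Y112.SR Pool.Agent.Y112.KD
open Pool.Agent.Y112.SC (bx bx_comp bx_one bx_map bx_par map_whiskerRight_eq bx_sw bx_add_left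
  bx_add_right bx_smul_left bx_smul_right bx_zero_left bx_zero_right bx_sum_left exists_rk
  up Sg Sg_Sg swap_sq)

namespace Pool.Agent.V8H31.KS

universe v u w

open Functor.LaxMonoidal Functor.OplaxMonoidal

section

variable {C : Type u} [Category.{v} C] [Preadditive C] [Linear ℚ C] [MonoidalCategory C]
  [MonoidalPreadditive C] [MonoidalLinear ℚ C] [SymmetricCategory C]
  [RightRigidCategory C] {K : Type w} [Field K] {R : SuperRealisation C K} {𝒢 : ZGr R}

/-- The weight operators act by scalars on the weight spaces. -/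
lemma D_coef {X : C} {T : R.H.obj X ⟶ R.H.obj X} (hT : T ∈ Dg 𝒢 X) (i : ℤ) :
    ∃ a : K, 𝒢.gr X i ≫ T = a • 𝒢.gr X i := by
  refine D_ind (p := fun T => ∃ a : K, 𝒢.gr X i ≫ T = a • 𝒢.gr X i) (fun j => ?_) ?_
    (fun x y hx hy => ?_) (fun c x hx => ?_) hT
  · rw [gr_gr]
    split_ifs with h
    · exact ⟨1, (one_smul _ _).symm⟩
    · exact ⟨0, (zero_smul _ _).symm⟩
  · exact ⟨0, by rw [comp_zero, zero_smul]⟩
  · obtain ⟨a, ha⟩ := hx
    obtain ⟨b, hb⟩ := hy
    exact ⟨a + b, by rw [Preadditive.comp_add, ha, hb, add_smul]⟩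
  · obtain ⟨a, ha⟩ := hx
    exact ⟨c * a, by rw [Linear.comp_smul, ha, smul_smul]⟩

/-- If the `i`-th weight projector is not algebraic, some other weight cannot be separated from
`i` by algebraic weight operators. -/
lemma exists_unsep {X : C} {i : ℤ} (hi : 𝒢.gr X i ∉ alg R X) :
    ∃ j, j ≠ i ∧ 𝒢.gr X j ≠ 0 ∧ ∀ T ∈ Dg 𝒢 X, T ∈ alg R X →
      ∃ c : K, 𝒢.gr X i ≫ T = c • 𝒢.gr X i ∧ 𝒢.gr X j ≫ T = c • 𝒢.gr X j := by
  by_contra hcon
  push Not at hcon
  have hsep : ∀ j, j ≠ i → 𝒢.gr X j ≠ 0 → ∃ T ∈ Dg 𝒢 X, T ∈ alg R X ∧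
      𝒢.gr X i ≫ T = 𝒢.gr X i ∧ 𝒢.gr X j ≫ T = 0 := by
    intro j hj hj0
    obtain ⟨T, hT, hTa, h⟩ := hcon j hj hj0
    obtain ⟨a, ha⟩ := D_coef hT i
    obtain ⟨b, hb⟩ := D_coef hT j
    have hab : a - b ≠ 0 := by
      intro h0
      have h1 : a = b := sub_eq_zero.1 h0
      exact h a ha (by rw [h1]; exact hb)
    refine ⟨(a - b)⁻¹ • (T - b • 𝟙 _), Submodule.smul_mem _ _ (Submodule.sub_mem _ hT
      (Submodule.smul_mem _ _ (one_mem 𝒢 X))), Submodule.smul_mem _ _ (Submodule.sub_mem _ hTa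
      (Submodule.smul_mem _ _ (one_alg X))), ?_, ?_⟩
    · rw [Linear.comp_smul, Preadditive.comp_sub, ha, Linear.comp_smul, Category.comp_id,
        ← sub_smul, smul_smul, inv_mul_cancel₀ hab, one_smul]
    · rw [Linear.comp_smul, Preadditive.comp_sub, hb, Linear.comp_smul, Category.comp_id,
        sub_self, smul_zero]
  have hall : ∀ S : Finset ℤ, i ∉ S → ∃ T ∈ Dg 𝒢 X, T ∈ alg R X ∧
      𝒢.gr X i ≫ T = 𝒢.gr X i ∧ ∀ j ∈ S, 𝒢.gr X j ≫ T = 0 := by
    classical
    intro S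
    induction S using Finset.induction_on with
    | empty =>
      intro _
      exact ⟨𝟙 _, one_mem 𝒢 X, one_alg X, Category.comp_id _, fun j hj =>
        absurd hj (Finset.notMem_empty j)⟩
    | insert j S hjS ih =>
      intro hiS
      rw [Finset.mem_insert, not_or] at hiS
      obtain ⟨T, hT, hTa, h1, h2⟩ := ih hiS.2
      by_cases hj0 : 𝒢.gr X j = 0
      · refine ⟨T, hT, hTa, h1, fun l hl => ?_⟩
        rcases Finset.mem_insert.1 hl with rfl | hl
        · rw [hj0, zero_comp]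
        · exact h2 l hl
      · obtain ⟨T', hT', hTa', h1', h2'⟩ := hsep j (Ne.symm hiS.1) hj0
        refine ⟨T ≫ T', D_comp hT hT', comp_mem hTa hTa', ?_, fun l hl => ?_⟩
        · rw [← Category.assoc, h1, h1']
        · rcases Finset.mem_insert.1 hl with rfl | hl
          · rw [D_comm hT hT', ← Category.assoc, h2', zero_comp]
          · rw [← Category.assoc, h2 l hl, zero_comp]
  obtain ⟨s, hs, hsum⟩ := 𝒢.gr_sum X
  obtain ⟨T, hT, hTa, h1, h2⟩ := hall (s.erase i) (Finset.notMem_erase _ _)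
  have hid : i ∈ s := by
    by_contra h
    apply hi
    rw [hs i h]
    exact Submodule.zero_mem _
  have h3 : T = 𝒢.gr X i := by
    have h4 : T = ∑ l ∈ s, 𝒢.gr X l ≫ T := by
      rw [← Preadditive.sum_comp, hsum, Category.id_comp]
    rw [h4, Finset.sum_eq_single i]
    · exact h1
    · intro b hb hbi
      exact h2 b (Finset.mem_erase.2 ⟨hbi, hb⟩)
    · intro h
      exact absurd hid h
  rw [h3] at hTa
  exact hi hTa

/-- A letter: a vector of degree `i` and a dual functional. -/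
structure Letter (𝒢 : ZGr R) {X : C} (i : ℤ) (v : R.H.obj X) (f : R.H.obj X →ₗ[K] K) :
    Prop where
  vec : (𝒢.gr X i).hom v = v
  fun' : f ∘ₗ (𝒢.gr X i).hom = f
  one : f v = 1

lemma exists_letter {X : C} {i : ℤ} (h : 𝒢.gr X i ≠ 0) :
    ∃ (v : R.H.obj X) (f : R.H.obj X →ₗ[K] K), Letter 𝒢 i v f := by
  have h1 : ∃ x, (𝒢.gr X i).hom x ≠ 0 := by
    by_contra hcon
    push Not at hcon
    apply h
    ext x
    exact hcon x
  obtain ⟨x, hx⟩ := h1
  obtain ⟨f0, hf0⟩ : ∃ f0 : R.H.obj X →ₗ[K] K, f0 ((𝒢.gr X i).hom x) = 1 := by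
    have hne : ∃ g : R.H.obj X →ₗ[K] K, g ((𝒢.gr X i).hom x) ≠ 0 := by
      by_contra hcon
      push Not at hcon
      exact hx ((Module.forall_dual_apply_eq_zero_iff K _).1 hcon)
    obtain ⟨g, hg⟩ := hne
    refine ⟨(g ((𝒢.gr X i).hom x))⁻¹ • g, ?_⟩
    rw [LinearMap.smul_apply, smul_eq_mul, inv_mul_cancel₀ hg]
  have h3 : (𝒢.gr X i).hom ((𝒢.gr X i).hom x) = (𝒢.gr X i).hom x := by
    have := LinearMap.congr_fun (congrArg ModuleCat.Hom.hom (𝒢.gr_idem X i)) x
    exact this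
  refine ⟨(𝒢.gr X i).hom x, f0 ∘ₗ (𝒢.gr X i).hom, h3, ?_, ?_⟩
  · ext y
    have := LinearMap.congr_fun (congrArg ModuleCat.Hom.hom (𝒢.gr_idem X i)) y
    exact congrArg f0 this
  · rw [LinearMap.comp_apply, h3, hf0]

end

end Pool.Agent.V8H31.KS
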