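import Pool.Agent.V8H31.KS.Der

/-!
# Spectral projectors of derivations attached to idempotents
-/

set_option autoImplicit false
set_option linter.unusedSectionVars false
set_option linter.unusedSimpArgs false
set_option backward.isDefEq.respectTransparency false
set_option backward.defeqAttrib.useBackward true

open CategoryTheory Limits MonoidalCategory
open Pool.Agent.Y112.SR Pool.Agent.Y112.KD
open Pool.Agent.Y112.SC (bx bx_comp bx_one bx_map bx_par map_whiskerRight_eq bx_sw bx_add_left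
  bx_add_right bx_smul_left bx_smul_right bx_zero_left bx_zero_right bx_sum_left exists_rk)

namespace Pool.Agent.V8H31.KS

universe v u w

open Functor.LaxMonoidal Functor.OplaxMonoidal

section

variable {C : Type u} [Category.{v} C] [Preadditive C] [MonoidalCategory C] [SymmetricCategory C]
  {K : Type w} [Field K] {R : SuperRealisation C K}

/-- The projector onto the part with `k` factors in the image of `p`. -/
noncomputable def EP {X : C} (p : R.H.obj X ⟶ R.H.obj X) :
    ∀ (n : ℕ) (_ : ℤ), R.H.obj (tp X n) ⟶ R.H.obj (tp X n)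
  | 0, k => if k = 0 then 𝟙 _ else 0
  | n + 1, k => bx R (EP p n k) (𝟙 _ - p) + bx R (EP p n (k - 1)) p

lemma EP_zero {X : C} (p : R.H.obj X ⟶ R.H.obj X) (k : ℤ) :
    EP p 0 k = if k = 0 then 𝟙 _ else 0 := rfl

lemma EP_succ {X : C} (p : R.H.obj X ⟶ R.H.obj X) (n : ℕ) (k : ℤ) : EP p (n + 1) k =
    bx R (EP p n k) (𝟙 _ - p) + bx R (EP p n (k - 1)) p := rfl

lemma EP_idem {X : C} {p : R.H.obj X ⟶ R.H.obj X} (hp : p ≫ p = p) (n : ℕ) (k : ℤ) :
    EP p n k ≫ EP p n k = EP p n k := by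
  have h1 : p ≫ (𝟙 _ - p) = 0 := by rw [Preadditive.comp_sub, Category.comp_id, hp, sub_self]
  have h2 : (𝟙 _ - p) ≫ p = 0 := by rw [Preadditive.sub_comp, Category.id_comp, hp, sub_self]
  have h3 : (𝟙 _ - p) ≫ (𝟙 _ - p) = 𝟙 _ - p := by
    rw [Preadditive.comp_sub, h2, Category.comp_id, sub_zero]
  induction n generalizing k with
  | zero =>
    rw [EP_zero]
    split_ifs <;> simp
  | succ n ih =>
    rw [EP_succ, Preadditive.comp_add, Preadditive.add_comp, Preadditive.add_comp, bx_comp,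
      bx_comp, bx_comp, bx_comp, ih, ih, h1, h2, h3, hp, bx_zero_right,
      bx_zero_right, add_zero, zero_add]

lemma EP_orth {X : C} {p : R.H.obj X ⟶ R.H.obj X} (hp : p ≫ p = p) (n : ℕ) (k l : ℤ)
    (hkl : k ≠ l) : EP p n k ≫ EP p n l = 0 := by
  have h1 : p ≫ (𝟙 _ - p) = 0 := by rw [Preadditive.comp_sub, Category.comp_id, hp, sub_self]
  have h2 : (𝟙 _ - p) ≫ p = 0 := by rw [Preadditive.sub_comp, Category.id_comp, hp, sub_self]
  induction n generalizing k l with
  | zero =>
    rw [EP_zero, EP_zero]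
    by_cases h : k = 0
    · rw [if_pos h, if_neg (by omega), comp_zero]
    · rw [if_neg h, zero_comp]
  | succ n ih =>
    rw [EP_succ, EP_succ, Preadditive.comp_add, Preadditive.add_comp, Preadditive.add_comp,
      bx_comp, bx_comp, bx_comp, bx_comp, ih k l hkl, ih (k - 1) (l - 1) (by omega), h1, h2,
      bx_zero_right, bx_zero_right, bx_zero_left, bx_zero_left]
    simp

lemma EP_neg {X : C} (p : R.H.obj X ⟶ R.H.obj X) (n : ℕ) (k : ℤ) (hk : k < 0) :
    EP p n k = 0 := by
  induction n generalizing k with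
  | zero => rw [EP_zero, if_neg (by omega)]
  | succ n ih =>
    rw [EP_succ, ih k hk, ih (k - 1) (by omega), bx_zero_left, bx_zero_left, add_zero]

lemma EP_gt {X : C} (p : R.H.obj X ⟶ R.H.obj X) (n : ℕ) (k : ℤ) (hk : (n : ℤ) < k) :
    EP p n k = 0 := by
  induction n generalizing k with
  | zero =>
    rw [EP_zero, if_neg]
    simp at hk
    omega
  | succ n ih =>
    push_cast at hk
    rw [EP_succ, ih k (by omega), ih (k - 1) (by omega), bx_zero_left, bx_zero_left, add_zero]

lemma EP_sum {X : C} (p : R.H.obj X ⟶ R.H.obj X) (n : ℕ) (f : ℕ → K) :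
    ∑ k ∈ Finset.range (n + 2), f k • EP p (n + 1) (k : ℤ) =
      ∑ k ∈ Finset.range (n + 1), bx R (EP p n (k : ℤ)) (f k • (𝟙 _ - p) + f (k + 1) • p) := by
  simp only [EP_succ, smul_add, Finset.sum_add_distrib]
  have h1 : ∑ k ∈ Finset.range (n + 2), f k • bx R (EP p n (k : ℤ)) (𝟙 _ - p) =
      ∑ k ∈ Finset.range (n + 1), f k • bx R (EP p n (k : ℤ)) (𝟙 _ - p) := by
    rw [Finset.sum_range_succ, EP_gt p n ((n + 1 : ℕ) : ℤ) (by push_cast; omega), bx_zero_left,
      smul_zero, add_zero]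
  have h2 : ∑ k ∈ Finset.range (n + 2), f k • bx R (EP p n ((k : ℤ) - 1)) p =
      ∑ k ∈ Finset.range (n + 1), f (k + 1) • bx R (EP p n (k : ℤ)) p := by
    rw [Finset.sum_range_succ', EP_neg p n (((0 : ℕ) : ℤ) - 1) (by simp), bx_zero_left,
      smul_zero, add_zero]
    refine Finset.sum_congr rfl fun k _ => ?_
    have : (((k + 1 : ℕ) : ℤ) - 1) = k := by push_cast; ring
    rw [this]
  rw [h1, h2, ← Finset.sum_add_distrib]
  refine Finset.sum_congr rfl fun k _ => ?_
  rw [bx_add_right, bx_smul_right, bx_smul_right]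

lemma EP_one {X : C} (p : R.H.obj X ⟶ R.H.obj X) (n : ℕ) :
    ∑ k ∈ Finset.range (n + 1), EP p n (k : ℤ) = 𝟙 _ := by
  induction n with
  | zero => simp [EP_zero]
  | succ n ih =>
    have h1 := EP_sum p n (fun _ => (1 : K))
    simp only [one_smul, sub_add_cancel] at h1
    rw [h1, bx_sum_left, ih, bx_one]

lemma Der_eq {X : C} (p : R.H.obj X ⟶ R.H.obj X) (n : ℕ) :
    Der p n = ∑ k ∈ Finset.range (n + 1), (k : K) • EP p n (k : ℤ) := by
  induction n with
  | zero => simp [Der]
  | succ n ih =>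
    have h1 := EP_sum p n (fun k => (k : K))
    rw [h1]
    have h3 : ∀ k : ℕ, ((k : K)) • (𝟙 _ - p) + (((k + 1 : ℕ) : K)) • p =
        (k : K) • 𝟙 _ + p := by
      intro k
      push_cast
      module
    simp only [h3, bx_add_right, bx_smul_right, Finset.sum_add_distrib]
    rw [bx_sum_left, EP_one, Der_succ]
    congr 1
    rw [ih, ← bx_sum_left]
    refine Finset.sum_congr rfl fun k _ => ?_
    rw [bx_smul_left]

/-- The spectral projectors commute with the exchanges. -/
lemma EP_swap (h2 : (2 : K) ≠ 0) {X : C} {p : R.H.obj X ⟶ R.H.obj X} (hp : Ev p) {n : ℕ}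
    {s : tp X n ⟶ tp X n} (hs : IsSwap X n s)
    (k : ℤ) : R.H.map s ≫ EP p n k = EP p n k ≫ R.H.map s := by
  have hq : (𝟙 _ - p) ≫ R.par X = R.par X ≫ (𝟙 _ - p) := by
    rw [Preadditive.sub_comp, Preadditive.comp_sub, Category.id_comp, Category.comp_id, hp]
  induction hs generalizing k with
  | last n =>
    simp only [EP_succ, bx_add_left, Preadditive.comp_add, Preadditive.add_comp]
    rw [bx_sw R h2 _ _ _ hq hq, bx_sw R h2 _ _ _ hp hq,
      bx_sw R h2 _ _ _ hq hp, bx_sw R h2 _ _ _ hp hp]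
    abel
  | lift n s hs ih =>
    rw [map_whiskerRight_eq, EP_succ, Preadditive.comp_add, Preadditive.add_comp, bx_comp,
      bx_comp, bx_comp, bx_comp, ih, ih]
    simp only [Category.comp_id, Category.id_comp]

/-- Spectral projectors of commuting idempotents commute. -/
lemma EP_EP {X : C} {p q : R.H.obj X ⟶ R.H.obj X} (hpq : p ≫ q = q ≫ p) (n : ℕ) (k l : ℤ) :
    EP p n k ≫ EP q n l = EP q n l ≫ EP p n k := by
  induction n generalizing k l with
  | zero =>
    rw [EP_zero, EP_zero]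
    split_ifs <;> simp
  | succ n ih =>
    have h1 : p ≫ (𝟙 _ - q) = (𝟙 _ - q) ≫ p := by
      rw [Preadditive.comp_sub, Preadditive.sub_comp, Category.comp_id, Category.id_comp, hpq]
    have h2 : (𝟙 _ - p) ≫ q = q ≫ (𝟙 _ - p) := by
      rw [Preadditive.comp_sub, Preadditive.sub_comp, Category.comp_id, Category.id_comp, hpq]
    have h3 : (𝟙 _ - p) ≫ (𝟙 _ - q) = (𝟙 _ - q) ≫ (𝟙 _ - p) := by
      simp only [Preadditive.comp_sub, Preadditive.sub_comp, Category.comp_id, Category.id_comp,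
        hpq]
      abel
    simp only [EP_succ, Preadditive.comp_add, Preadditive.add_comp, bx_comp, ih, h1, h2, h3, hpq]
    abel

end

section

variable {C : Type u} [Category.{v} C] [Preadditive C] [Linear ℚ C] [MonoidalCategory C]
  [MonoidalPreadditive C] [MonoidalLinear ℚ C] [SymmetricCategory C]
  [RightRigidCategory C] {K : Type w} [Field K] {R : SuperRealisation C K}

/-- The trace as a linear map. -/
noncomputable def trc (R : SuperRealisation C K) (X : C) : (R.H.obj X ⟶ R.H.obj X) →ₗ[K] K where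
  toFun a := LinearMap.trace K (R.H.obj X) a.hom
  map_add' a b := by rw [ModuleCat.hom_add, map_add]
  map_smul' c a := by rw [ModuleCat.hom_smul, map_smul]; rfl

lemma trc_swap {X : C} (a b : R.H.obj X ⟶ R.H.obj X) : trc R X (a ≫ b) = trc R X (b ≫ a) :=
  trace_swap a b

/-- Positivity of the traces of derivations attached to an idempotent. -/
lemma pos1 {X : C} {p : R.H.obj X ⟶ R.H.obj X} (hp : p ≫ p = p) (n : ℕ)
    {E : R.H.obj (tp X n) ⟶ R.H.obj (tp X n)} (hE : E ≫ E = E)
    (hc : ∀ k, E ≫ EP p n k = EP p n k ≫ E) :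
    ∃ t : ℕ, trc R (tp X n) (Der p n ≫ E) = t ∧ (t = 0 → Der p n ≫ E = 0) := by
  have hK := R_charZero R
  have hrk : ∀ k : ℕ, ∃ t : ℕ, LinearMap.trace K (R.H.obj (tp X n))
      (EP p n (k : ℤ) ≫ E).hom = t ∧ (t = 0 → EP p n (k : ℤ) ≫ E = 0) := by
    intro k
    have h3 : (EP p n (k : ℤ) ≫ E) ≫ (EP p n (k : ℤ) ≫ E) = EP p n (k : ℤ) ≫ E := by
      have f1 : (EP p n (k : ℤ) ≫ E) ≫ (EP p n (k : ℤ) ≫ E) =
          EP p n (k : ℤ) ≫ (E ≫ EP p n (k : ℤ)) ≫ E := by
        simp only [Category.assoc]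
      rw [f1, hc, Category.assoc, hE, ← Category.assoc, EP_idem hp]
    exact exists_rk R _ h3 hK
  choose ρ hρ hρ0 using hrk
  refine ⟨∑ k ∈ Finset.range (n + 1), k * ρ k, ?_, fun h => ?_⟩
  · rw [Der_eq, Preadditive.sum_comp, map_sum]
    push_cast
    refine Finset.sum_congr rfl fun k _ => ?_
    rw [Linear.smul_comp, map_smul, smul_eq_mul, ← hρ k]
    rfl
  · rw [Finset.sum_eq_zero_iff] at h
    rw [Der_eq, Preadditive.sum_comp]
    refine Finset.sum_eq_zero fun k hk => ?_
    rcases Nat.mul_eq_zero.1 (h k hk) with h1 | h1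
    · rw [h1, Nat.cast_zero, zero_smul, zero_comp]
    · rw [Linear.smul_comp, hρ0 k h1, smul_zero]

/-- Definiteness of the square of the difference of two derivations. -/
lemma pos2 {X : C} {p q : R.H.obj X ⟶ R.H.obj X} (hp : p ≫ p = p) (hq : q ≫ q = q)
    (hpq : p ≫ q = q ≫ p) (n : ℕ)
    {E : R.H.obj (tp X n) ⟶ R.H.obj (tp X n)} (hE : E ≫ E = E)
    (hc : ∀ k, E ≫ EP p n k = EP p n k ≫ E) (hd : ∀ k, E ≫ EP q n k = EP q n k ≫ E)
    (h0 : trc R (tp X n) ((Der p n - Der q n) ≫ (Der p n - Der q n) ≫ E) = 0) :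
    (Der p n - Der q n) ≫ E = 0 := by
  have hK := R_charZero R
  obtain ⟨F, hF⟩ : ∃ F : ℕ → ℕ → (R.H.obj (tp X n) ⟶ R.H.obj (tp X n)), ∀ k l : ℕ, F k l =
    EP p n (k : ℤ) ≫ EP q n (l : ℤ) := ⟨fun k l => EP p n (k : ℤ) ≫ EP q n (l : ℤ),
      fun _ _ => rfl⟩
  have hrk : ∀ k l : ℕ, ∃ t : ℕ, LinearMap.trace K (R.H.obj (tp X n))
      (F k l ≫ E).hom = t ∧ (t = 0 → F k l ≫ E = 0) := by
    intro k l
    have hFE : E ≫ F k l = F k l ≫ E := by
      simp only [hF]
      rw [← Category.assoc, hc, Category.assoc, hd, Category.assoc]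
    have hFF : F k l ≫ F k l = F k l := by
      simp only [hF]
      have f1 : (EP p n (k : ℤ) ≫ EP q n (l : ℤ)) ≫ EP p n (k : ℤ) ≫ EP q n (l : ℤ) =
          EP p n (k : ℤ) ≫ (EP q n (l : ℤ) ≫ EP p n (k : ℤ)) ≫ EP q n (l : ℤ) := by
        simp only [Category.assoc]
      rw [f1, ← EP_EP hpq, Category.assoc, EP_idem hq, ← Category.assoc, EP_idem hp]
    have h3 : (F k l ≫ E) ≫ (F k l ≫ E) = F k l ≫ E := by
      have f1 : (F k l ≫ E) ≫ (F k l ≫ E) = F k l ≫ (E ≫ F k l) ≫ E := by
        simp only [Category.assoc]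
      have f2 : F k l ≫ (F k l ≫ E) ≫ E = (F k l ≫ F k l) ≫ (E ≫ E) := by
        simp only [Category.assoc]
      rw [f1, hFE, f2, hE, hFF]
    exact exists_rk R _ h3 hK
  choose ρ hρ hρ0 using hrk
  -- the expansions
  have hone : ∑ k ∈ Finset.range (n + 1), ∑ l ∈ Finset.range (n + 1), F k l = 𝟙 _ := by
    simp only [hF]
    have e1 : ∀ k ∈ Finset.range (n + 1), ∑ l ∈ Finset.range (n + 1),
        EP p n (k : ℤ) ≫ EP q n (l : ℤ) = EP p n (k : ℤ) := by
      intro k _
      rw [← Preadditive.comp_sum, EP_one, Category.comp_id]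
    rw [Finset.sum_congr rfl e1, EP_one]
  have hD : ∀ k ∈ Finset.range (n + 1), ∀ l ∈ Finset.range (n + 1),
      (Der p n - Der q n) ≫ F k l = ((k : K) - l) • F k l := by
    intro k hk l hl
    have e1 : Der p n ≫ F k l = (k : K) • F k l := by
      simp only [hF]
      rw [Der_eq, ← Category.assoc, Preadditive.sum_comp, Finset.sum_eq_single k]
      · rw [Linear.smul_comp, EP_idem hp, Linear.smul_comp]
      · intro b _ hb
        rw [Linear.smul_comp, EP_orth hp n b k (by exact_mod_cast hb), smul_zero]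
      · intro h
        exact absurd hk h
    have e2 : Der q n ≫ F k l = (l : K) • F k l := by
      simp only [hF]
      rw [EP_EP hpq, Der_eq, ← Category.assoc, Preadditive.sum_comp, Finset.sum_eq_single l]
      · rw [Linear.smul_comp, EP_idem hq, Linear.smul_comp]
      · intro b _ hb
        rw [Linear.smul_comp, EP_orth hq n b l (by exact_mod_cast hb), smul_zero]
      · intro h
        exact absurd hl h
    rw [Preadditive.sub_comp, e1, e2, sub_smul]
  have hZ : (Der p n - Der q n) = ∑ k ∈ Finset.range (n + 1), ∑ l ∈ Finset.range (n + 1),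
      ((k : K) - l) • F k l := by
    conv_lhs => rw [← Category.comp_id (Der p n - Der q n), ← hone, Preadditive.comp_sum]
    refine Finset.sum_congr rfl fun k hk => ?_
    rw [Preadditive.comp_sum]
    exact Finset.sum_congr rfl fun l hl => hD k hk l hl
  have hZZ : (Der p n - Der q n) ≫ (Der p n - Der q n) = ∑ k ∈ Finset.range (n + 1),
      ∑ l ∈ Finset.range (n + 1), (((k : K) - l) * ((k : K) - l)) • F k l := by
    have e0 := congrArg (fun z => (Der p n - Der q n) ≫ z) hZ
    refine e0.trans ?_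
    change (Der p n - Der q n) ≫ (∑ k ∈ Finset.range (n + 1), ∑ l ∈ Finset.range (n + 1),
      ((k : K) - l) • F k l) = _
    rw [Preadditive.comp_sum]
    refine Finset.sum_congr rfl fun k hk => ?_
    rw [Preadditive.comp_sum]
    refine Finset.sum_congr rfl fun l hl => ?_
    rw [Linear.comp_smul, hD k hk l hl, smul_smul]
  rw [← Category.assoc, hZZ, Preadditive.sum_comp, map_sum] at h0
  have h1 : ((∑ k ∈ Finset.range (n + 1), ∑ l ∈ Finset.range (n + 1),
      (((k : ℤ) - l) * ((k : ℤ) - l)) * ρ k l : ℤ) : K) = 0 := by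
    rw [← h0]
    push_cast
    refine Finset.sum_congr rfl fun k _ => ?_
    rw [Preadditive.sum_comp, map_sum]
    refine Finset.sum_congr rfl fun l _ => ?_
    rw [Linear.smul_comp, map_smul, smul_eq_mul, ← hρ k l]
    rfl
  have h2 : (∑ k ∈ Finset.range (n + 1), ∑ l ∈ Finset.range (n + 1),
      (((k : ℤ) - l) * ((k : ℤ) - l)) * ρ k l : ℤ) = 0 := by exact_mod_cast h1
  have hpos : ∀ k l : ℕ, (0 : ℤ) ≤ (((k : ℤ) - l) * ((k : ℤ) - l)) * ρ k l := fun k l =>
    mul_nonneg (mul_self_nonneg _) (by positivity)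
  rw [Finset.sum_eq_zero_iff_of_nonneg (fun k _ => Finset.sum_nonneg fun l _ => hpos k l)] at h2
  rw [hZ, Preadditive.sum_comp]
  refine Finset.sum_eq_zero fun k hk => ?_
  have h3 := h2 k hk
  rw [Finset.sum_eq_zero_iff_of_nonneg (fun l _ => hpos k l)] at h3
  rw [Preadditive.sum_comp]
  refine Finset.sum_eq_zero fun l hl => ?_
  rcases mul_eq_zero.1 (h3 l hl) with h4 | h4
  · have h5 : (k : ℤ) = l := by
      have := mul_self_eq_zero.1 h4
      omega
    have h6 : (k : K) = (l : K) := by exact_mod_cast h5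
    rw [h6, sub_self, zero_smul, zero_comp]
  · rw [Linear.smul_comp, hρ0 k l (by exact_mod_cast h4), smul_zero]

end

end Pool.Agent.V8H31.KS
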