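import Pool.Agent.V8H31.KS.Main

/-!
# Tensor products and iterated constructions
-/

set_option autoImplicit false
set_option linter.unusedSectionVars false
set_option linter.unusedSimpArgs false
set_option backward.isDefEq.respectTransparency false
set_option backward.defeqAttrib.useBackward true

open CategoryTheory Limits MonoidalCategory
open Pool.Agent.Y112.SR Pool.Agent.Y112.KD
open Pool.Agent.Y112.SC (bx bx_comp bx_one PT PT_bx exists_rk IsSchurSummand)

namespace Pool.Agent.V8H31.KS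

universe v u w

open Functor.LaxMonoidal Functor.OplaxMonoidal

section

variable {C : Type u} [Category.{v} C] [Preadditive C] [Linear ℚ C] [MonoidalCategory C]
  [MonoidalPreadditive C] [MonoidalLinear ℚ C] [SymmetricCategory C]
  [RightRigidCategory C] {K : Type w} [Field K] {R : SuperRealisation C K} {𝒢 : ZGr R}

lemma str_zero {X : C} {j : ℤ} (h : 𝒢.gr X j = 0) :
    LinearMap.trace K (R.H.obj X) (𝒢.gr X j ≫ R.par X).hom = 0 := by
  rw [h, zero_comp, ModuleCat.hom_zero, map_zero]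

lemma str_ne {X : C} {j : ℤ} (h : 𝒢.gr X j ≠ 0) :
    LinearMap.trace K (R.H.obj X) (𝒢.gr X j ≫ R.par X).hom ≠ 0 := by
  have hK := R_charZero R
  obtain ⟨p, hp, hp0⟩ := exists_rk R (𝒢.gr X j) (𝒢.gr_idem X j) hK
  rw [𝒢.gr_par, ModuleCat.hom_smul, map_smul, hp, smul_eq_mul]
  refine mul_ne_zero (sgn_ne j) ?_
  intro h0
  exact h (hp0 (by exact_mod_cast h0))

lemma ptK_gr (P Q : C) {s : Finset ℤ} (hs : ∑ i ∈ s, 𝒢.gr P i = 𝟙 _) (k : ℤ) :
    ptK R P Q (𝒢.gr (P ⊗ Q) k) = ∑ i ∈ s,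
      (LinearMap.trace K (R.H.obj Q) (𝒢.gr Q (k - i) ≫ R.par Q).hom) • 𝒢.gr P i := by
  have hK := R_charZero R
  rw [gr_tp P Q hs, map_sum]
  refine Finset.sum_congr rfl fun i _ => ?_
  exact PT_bx R two_ne_zero _ _

/-- The Künneth conjecture descends from tensor products. -/
theorem kun_left {P Q : C} (hQ : ¬ IsZero (R.H.obj Q)) (h : Kun 𝒢 (P ⊗ Q)) : Kun 𝒢 P := by
  classical
  obtain ⟨s, hs0, hs1⟩ := 𝒢.gr_sum P
  obtain ⟨t, ht0, ht1⟩ := 𝒢.gr_sum Q
  have hT : (t.filter fun j => 𝒢.gr Q j ≠ 0).Nonempty := by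
    by_contra hne
    rw [Finset.not_nonempty_iff_eq_empty] at hne
    apply hQ
    rw [IsZero.iff_id_eq_zero, ← ht1]
    refine Finset.sum_eq_zero fun j hj => ?_
    by_contra hj0
    have : j ∈ t.filter fun j => 𝒢.gr Q j ≠ 0 := Finset.mem_filter.2 ⟨hj, hj0⟩
    rw [hne] at this
    exact absurd this (Finset.notMem_empty j)
  obtain ⟨m, hm, hmin⟩ := Finset.exists_min_image _ (fun x : ℤ => x) hT
  rw [Finset.mem_filter] at hm
  have hlow : ∀ j, j < m → 𝒢.gr Q j = 0 := by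
    intro j hj
    by_contra hj0
    have hjt : j ∈ t := by
      by_contra hjt
      exact hj0 (ht0 j hjt)
    have hmj : m ≤ j := hmin j (Finset.mem_filter.2 ⟨hjt, hj0⟩)
    omega
  by_contra hcon
  unfold Kun at hcon
  push Not at hcon
  obtain ⟨i0, hi0⟩ := hcon
  have hi0s : i0 ∈ s := by
    by_contra hn
    rw [hs0 i0 hn] at hi0
    exact hi0 (Submodule.zero_mem _)
  have hB : (s.filter fun i => 𝒢.gr P i ∉ alg R P).Nonempty :=
    ⟨i0, Finset.mem_filter.2 ⟨hi0s, hi0⟩⟩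
  obtain ⟨i, hi, himin⟩ := Finset.exists_min_image _ (fun x : ℤ => x) hB
  rw [Finset.mem_filter] at hi
  have h1 := ptK_mem (h (i + m))
  rw [ptK_gr P Q hs1, ← Finset.add_sum_erase s _ hi.1] at h1
  have h2 : ∑ l ∈ s.erase i, (LinearMap.trace K (R.H.obj Q)
      (𝒢.gr Q (i + m - l) ≫ R.par Q).hom) • 𝒢.gr P l ∈ alg R P := by
    refine Submodule.sum_mem _ fun l hl => ?_
    rw [Finset.mem_erase] at hl
    rcases lt_or_gt_of_ne hl.1 with hlt | hgt
    · refine Submodule.smul_mem _ _ ?_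
      by_contra hn
      have hil : i ≤ l := himin l (Finset.mem_filter.2 ⟨hl.2, hn⟩)
      omega
    · rw [str_zero (hlow _ (by omega)), zero_smul]
      exact Submodule.zero_mem _
  have h3 := (Submodule.add_mem_iff_left _ h2).1 h1
  have h4 : i + m - i = m := by ring
  rw [h4] at h3
  have h5 := (Submodule.smul_mem_iff _ (str_ne hm.2)).1 h3
  exact hi.2 h5

lemma kun_swap {P Q : C} (h : Kun 𝒢 (P ⊗ Q)) : Kun 𝒢 (Q ⊗ P) :=
  kun_retract (β_ Q P).hom (β_ Q P).inv (β_ Q P).hom_inv_id h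

/-- The Künneth conjecture for tensor products. -/
theorem kun_tensor_iff {P Q : C} (hP : ¬ IsZero (R.H.obj P)) (hQ : ¬ IsZero (R.H.obj Q)) :
    Kun 𝒢 (P ⊗ Q) ↔ Kun 𝒢 P ∧ Kun 𝒢 Q :=
  ⟨fun h => ⟨kun_left hQ h, kun_left hP (kun_swap h)⟩, fun h => kun_tensor h.1 h.2⟩

lemma TwoDegrees.ne {P : C} (h : TwoDegrees 𝒢 P) : ¬ IsZero (R.H.obj P) := by
  obtain ⟨k, l, -, hk, -⟩ := h
  intro h0
  apply hk
  exact h0.eq_of_src _ _

/-- The objects built from `M` in finitely many steps: a Schur functor of a built object (with at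
least two degrees), a nonzero tensor product with an arbitrary object, an object with a built direct
summand. -/
inductive Built (𝒢 : ZGr R) (M : C) : C → Prop
  | self : Built 𝒢 M M
  | schur {T P : C} {n : ℕ} : Built 𝒢 M T → IsSchurSummand T P n → TwoDegrees 𝒢 P → Built 𝒢 M P
  | tensor {T : C} (N : C) : Built 𝒢 M T → ¬ IsZero (R.H.obj N) → Built 𝒢 M (T ⊗ N)
  | super {T T' : C} (i : T ⟶ T') (r : T' ⟶ T) : Built 𝒢 M T → i ≫ r = 𝟙 T → Built 𝒢 M T'

theorem kun_of_built {M T : C} (hT : Built 𝒢 M T) (h : Kun 𝒢 T) : Kun 𝒢 M := by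
  induction hT with
  | self => exact h
  | schur _ hP h2 ih => exact ih ((schur_kun hP h2).1 h)
  | tensor N _ hN ih => exact ih (kun_left hN h)
  | super i r _ hir ih => exact ih (kun_retract i r hir h)

end

end Pool.Agent.V8H31.KS
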